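import Mathlib

/-!
# Reduced group C*-algebras of locally compact groups
-/

set_option autoImplicit false

open Topology MeasureTheory Measure
open scoped NNReal ENNReal

namespace Pool.Agent.W657.BM

universe u v

section star

variable {H : Type u} [NormedAddCommGroup H] [InnerProductSpace ℂ H] [CompleteSpace H]
  {K : Type v} [NormedAddCommGroup K] [InnerProductSpace ℂ K] [CompleteSpace K]

/-- The C*-algebra generated by a set of bounded operators on a Hilbert space: the smallest closed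
`*`-subalgebra (not necessarily containing the unit) which contains the set. -/
noncomputable def Gen (s : Set (H →L[ℂ] H)) : NonUnitalStarSubalgebra ℂ (H →L[ℂ] H) :=
  (NonUnitalStarAlgebra.adjoin ℂ s).topologicalClosure

/-- The C*-algebra generated by a set of bounded operators on a Hilbert space, as a set. -/
def GenSet (s : Set (H →L[ℂ] H)) : Set (H →L[ℂ] H) := Gen s

/-- The C*-algebras `C` and `D` of operators are `*`-isomorphic: some map `φ` restricts to a
bijection from `C` to `D` which respects sums, products, adjoints and complex multiples. -/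
def StarIso (C : Set (H →L[ℂ] H)) (D : Set (K →L[ℂ] K)) : Prop :=
  ∃ φ : (H →L[ℂ] H) → (K →L[ℂ] K), Set.BijOn φ C D ∧
    (∀ a ∈ C, ∀ b ∈ C, φ (a + b) = φ a + φ b ∧ φ (a * b) = φ a * φ b) ∧
    ∀ a ∈ C, φ (star a) = star (φ a) ∧ ∀ z : ℂ, φ (z • a) = z • φ a

theorem isClosed_Gen (s : Set (H →L[ℂ] H)) : IsClosed (Gen s : Set (H →L[ℂ] H)) :=
  NonUnitalStarSubalgebra.isClosed_topologicalClosure _

theorem subset_Gen (s : Set (H →L[ℂ] H)) : s ⊆ Gen s := fun _ h =>
  NonUnitalStarSubalgebra.le_topologicalClosure _ (NonUnitalStarAlgebra.subset_adjoin ℂ s h)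

theorem Gen_le {s : Set (H →L[ℂ] H)} {t : NonUnitalStarSubalgebra ℂ (H →L[ℂ] H)}
    (ht : IsClosed (t : Set (H →L[ℂ] H))) (h : s ⊆ t) : Gen s ≤ t :=
  NonUnitalStarSubalgebra.topologicalClosure_minimal _ (NonUnitalStarAlgebra.adjoin_le h) ht

/-- conjugation with a unitary, as a `*`-homomorphism -/
noncomputable def conjHom (W : H ≃ₗᵢ[ℂ] K) : (H →L[ℂ] H) →⋆ₙₐ[ℂ] (K →L[ℂ] K) where
  toFun := W.conjStarAlgEquiv
  map_smul' := fun c a => map_smul W.conjStarAlgEquiv c a
  map_zero' := map_zero W.conjStarAlgEquiv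
  map_add' := fun a b => map_add W.conjStarAlgEquiv a b
  map_mul' := fun a b => map_mul W.conjStarAlgEquiv a b
  map_star' := fun a => map_star W.conjStarAlgEquiv a

theorem conj_mem (W : H ≃ₗᵢ[ℂ] K) {s : Set (H →L[ℂ] H)} {t : Set (K →L[ℂ] K)}
    (h : ∀ a ∈ s, W.conjStarAlgEquiv a ∈ t) (a : H →L[ℂ] H) (ha : a ∈ Gen s) :
    W.conjStarAlgEquiv a ∈ Gen t := by
  have hcont : Continuous (conjHom W) :=
    (NonUnitalStarAlgHom.isometry (conjHom W) W.conjStarAlgEquiv.injective).continuous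
  let T : NonUnitalStarSubalgebra ℂ (H →L[ℂ] H) := (Gen t).comap (conjHom W)
  have hT : IsClosed (T : Set (H →L[ℂ] H)) := (isClosed_Gen t).preimage hcont
  have h1 : s ⊆ T := fun a ha => subset_Gen t (h a ha)
  exact Gen_le hT h1 ha

theorem starIso_of_conj (W : H ≃ₗᵢ[ℂ] K) {s : Set (H →L[ℂ] H)} {t : Set (K →L[ℂ] K)}
    (h : ∀ a ∈ s, W.conjStarAlgEquiv a ∈ t) (h' : ∀ a ∈ t, W.symm.conjStarAlgEquiv a ∈ s) :
    StarIso (Gen s : Set (H →L[ℂ] H)) (Gen t : Set (K →L[ℂ] K)) := by
  have h2 : ∀ a, W.conjStarAlgEquiv (W.symm.conjStarAlgEquiv a) = a := by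
    intro a
    ext x
    simp
  refine ⟨W.conjStarAlgEquiv, ⟨fun a ha => conj_mem W h a ha,
    fun a _ b _ hab => W.conjStarAlgEquiv.injective hab,
    fun a ha => ⟨_, conj_mem W.symm h' a ha, h2 a⟩⟩, fun a _ b _ => ?_, fun a _ => ?_⟩
  · exact ⟨map_add W.conjStarAlgEquiv a b, map_mul W.conjStarAlgEquiv a b⟩
  · exact ⟨map_star W.conjStarAlgEquiv a, fun z => map_smul W.conjStarAlgEquiv z a⟩

end star

end Pool.Agent.W657.BM
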