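import Pool.Agent.W657.BM.Tree

/-!
# Coloured regular trees exist
-/

set_option autoImplicit false

open Topology SimpleGraph

namespace Pool.Agent.W657.BM

universe u v w

/-- every system which is a tree comes from a coloured tree -/
theorem exists_colTree {V : Type u} {Ω : Type v} [Nonempty V] [Nonempty Ω] (A : Sys V Ω)
    (hA : A.IsTree) : Nonempty (ColTree V Ω) := by
  classical
  have hne : ∀ i x, A.κ i x ≠ x := by
    intro i x h
    have := hA.free [i] x (List.isChain_singleton _) h
    simp at this
  let T : SimpleGraph V :=
    { Adj := fun x y => ∃ i, y = A.κ i x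
      symm := ⟨by
        rintro x y ⟨i, rfl⟩
        exact ⟨i, (A.inv i x).symm⟩⟩
      loopless := ⟨by
        rintro x ⟨i, hi⟩
        exact hne i x hi.symm⟩ }
  have hcol : ∀ i j x y, s(x, A.κ i x) = s(y, A.κ j y) → i = j := by
    intro i j x y h
    rw [Sym2.eq_iff] at h
    rcases h with ⟨rfl, h⟩ | ⟨h1, h2⟩
    · exact A.inj _ _ _ h
    · apply A.inj _ _ x
      rw [h2, h1, A.inv]
  let col : Sym2 V → Ω := fun e =>
    if h : ∃ (i : Ω) (x : V), e = s(x, A.κ i x) then h.choose else Classical.arbitrary Ω
  have hcol' : ∀ i x, col s(x, A.κ i x) = i := by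
    intro i x
    have h : ∃ (j : Ω) (y : V), s(x, A.κ i x) = s(y, A.κ j y) := ⟨i, x, rfl⟩
    have h1 : col s(x, A.κ i x) = h.choose := dif_pos h
    obtain ⟨y, hy⟩ := h.choose_spec
    rw [h1]
    exact (hcol _ _ _ _ hy).symm
  -- walks give words
  have hword : ∀ {x y : V} (p : T.Walk x y), A.act (p.edges.map col) x = y := by
    intro x y p
    induction p with
    | nil => rfl
    | @cons a b c h p ih =>
      obtain ⟨i, rfl⟩ := h
      rw [Walk.edges_cons, List.map_cons, hcol', Sys.act_cons, ih]
  refine ⟨⟨T, ⟨?_, ?_⟩, col, ?_⟩⟩
  · rw [connected_iff]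
    refine ⟨fun x y => ?_, inferInstance⟩
    obtain ⟨l, hl⟩ := hA.trans x y
    induction l generalizing x with
    | nil =>
      have : x = y := hl
      rw [this]
    | cons i l ih =>
      exact (SimpleGraph.Adj.reachable (show T.Adj x (A.κ i x) from ⟨i, rfl⟩)).trans (ih _ hl)
  · intro x p hp
    have h1 := hword p
    have h2 : Sys.Red (p.edges.map col) := by
      have h3 : ∀ {x y : V} (q : T.Walk x y), q.edges.Nodup → Sys.Red (q.edges.map col) := by
        intro x y q
        induction q with
        | nil => exact fun _ => List.isChain_nil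
        | @cons a b c h q ih =>
          intro hq
          rw [Walk.edges_cons, List.nodup_cons] at hq
          rw [Walk.edges_cons, List.map_cons]
          unfold Sys.Red
          rw [List.isChain_cons]
          refine ⟨?_, ih hq.2⟩
          intro d hd hab
          cases q with
          | nil => simp at hd
          | @cons _ e _ h' q =>
            obtain ⟨i, rfl⟩ := h
            obtain ⟨j, rfl⟩ := h'
            rw [Walk.edges_cons, List.map_cons, hcol'] at hd
            simp only [List.head?_cons, Option.mem_def, Option.some.injEq] at hd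
            rw [hcol', ← hd] at hab
            subst hab
            apply hq.1
            rw [Walk.edges_cons]
            have h9 : s(a, A.κ i a) = s(A.κ i a, A.κ i (A.κ i a)) := by
              rw [A.inv, Sym2.eq_swap]
            rw [List.mem_cons]
            exact Or.inl h9
      exact h3 p hp.isTrail.edges_nodup
    have h3 := hA.free _ _ h2 h1
    have h4 : p.edges = [] := by simpa using h3
    have h5 : p.length = 0 := by rw [← Walk.length_edges, h4]; rfl
    have := hp.three_le_length
    omega
  · intro x
    refine ⟨fun _ _ => Set.mem_univ _, ?_, ?_⟩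
    · rintro e ⟨he, hx⟩ f ⟨hf, hx'⟩ h
      obtain ⟨y, rfl⟩ := hx
      obtain ⟨z, rfl⟩ := hx'
      obtain ⟨i, hi⟩ := he
      obtain ⟨j, hj⟩ := hf
      have hi' : y = A.κ i x := hi
      have hj' : z = A.κ j x := hj
      subst hi' hj'
      rw [hcol', hcol'] at h
      rw [h]
    · intro i _
      exact ⟨s(x, A.κ i x), ⟨⟨i, rfl⟩, Sym2.mem_mk_left _ _⟩, hcol' i x⟩

section words

variable {Ω : Type v} [DecidableEq Ω]

/-- multiply a reduced word by a letter -/
def step (i : Ω) (l : {l : List Ω // Sys.Red l}) : {l : List Ω // Sys.Red l} :=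
  match l with
  | ⟨[], _⟩ => ⟨[i], List.isChain_singleton _⟩
  | ⟨j :: m, h⟩ => if hij : i = j then ⟨m, (List.isChain_cons.1 h).2⟩
      else ⟨i :: j :: m, List.isChain_cons_cons.2 ⟨hij, h⟩⟩

theorem step_of_red {i : Ω} {l : List Ω} (h : Sys.Red l) (h' : Sys.Red (i :: l)) :
    step i ⟨l, h⟩ = ⟨i :: l, h'⟩ := by
  cases l with
  | nil => rfl
  | cons j m =>
    have : i ≠ j := (List.isChain_cons_cons.1 h').1
    simp [step, this]

theorem step_cons {i : Ω} {l : List Ω} (h' : Sys.Red (i :: l)) :
    step i ⟨i :: l, h'⟩ = ⟨l, (List.isChain_cons.1 h').2⟩ := by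
  simp [step]

/-- the system of reduced words -/
def words (Ω : Type v) [DecidableEq Ω] : Sys {l : List Ω // Sys.Red l} Ω where
  κ := step
  inv i l := by
    obtain ⟨l, h⟩ := l
    cases l with
    | nil => simp [step]
    | cons j m =>
      by_cases hij : i = j
      · subst hij
        rw [step_cons h, step_of_red _ h]
      · have h' : Sys.Red (i :: j :: m) := List.isChain_cons_cons.2 ⟨hij, h⟩
        rw [step_of_red h h', step_cons h']
  inj i j l h := by
    obtain ⟨l, hl⟩ := l
    cases l with
    | nil => simpa [step] using h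
    | cons k m =>
      by_cases hi : i = k <;> by_cases hj : j = k
      · rw [hi, hj]
      · exfalso
        subst hi
        have h' : Sys.Red (j :: i :: m) := List.isChain_cons_cons.2 ⟨hj, hl⟩
        rw [step_cons hl, step_of_red hl h'] at h
        have := congrArg (fun l : {l : List Ω // Sys.Red l} => l.1.length) h
        simp only [List.length_cons] at this
        omega
      · exfalso
        subst hj
        have h' : Sys.Red (i :: j :: m) := List.isChain_cons_cons.2 ⟨hi, hl⟩
        rw [step_cons hl, step_of_red hl h'] at h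
        have := congrArg (fun l : {l : List Ω // Sys.Red l} => l.1.length) h
        simp only [List.length_cons] at this
        omega
      · have h' : Sys.Red (j :: k :: m) := List.isChain_cons_cons.2 ⟨hj, hl⟩
        have h'' : Sys.Red (i :: k :: m) := List.isChain_cons_cons.2 ⟨hi, hl⟩
        rw [step_of_red hl h', step_of_red hl h''] at h
        have := congrArg (fun l : {l : List Ω // Sys.Red l} => l.1) h
        simpa using this

theorem act_words (l : List Ω) (m : List Ω) (hm : Sys.Red m) (h : Sys.Red (l.reverse ++ m)) :
    (words Ω).act l ⟨m, hm⟩ = ⟨l.reverse ++ m, h⟩ := by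
  induction l generalizing m with
  | nil => rfl
  | cons i l ih =>
    have h1 : (i :: l).reverse ++ m = l.reverse ++ (i :: m) := by simp
    have h2 : Sys.Red (l.reverse ++ (i :: m)) := by rwa [h1] at h
    have h3 : Sys.Red (i :: m) := (List.isChain_append.1 h2).2.1
    rw [Sys.act_cons]
    have h4 : (words Ω).κ i ⟨m, hm⟩ = ⟨i :: m, h3⟩ := step_of_red hm h3
    rw [h4, ih (i :: m) h3 h2]
    exact Subtype.ext h1.symm

theorem act_words_nil (l : List Ω) (hl : Sys.Red l) :
    ((words Ω).act l ⟨[], List.isChain_nil⟩).1 = l.reverse := by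
  have h : Sys.Red (l.reverse ++ []) := by
    rw [List.append_nil]
    unfold Sys.Red
    rw [List.isChain_reverse]
    exact hl.imp fun a b hab => hab.symm
  rw [act_words l [] List.isChain_nil h]
  simp

theorem isTree_words (Ω : Type v) [DecidableEq Ω] : (words Ω).IsTree where
  free l x hl h := by
    obtain ⟨x, hx⟩ := x
    set root : {l : List Ω // Sys.Red l} := ⟨[], List.isChain_nil⟩ with hroot
    have hx' : Sys.Red x.reverse := by
      unfold Sys.Red
      rw [List.isChain_reverse]
      exact hx.imp fun a b hab => hab.symm
    have h1 : (words Ω).act x.reverse root = ⟨x, hx⟩ := by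
      apply Subtype.ext
      rw [act_words_nil _ hx', List.reverse_reverse]
    -- the word `x⁻¹ l x` acts trivially at the root
    have h2 : (words Ω).act (x.reverse ++ (l ++ x)) root = root := by
      rw [Sys.act_append, h1, Sys.act_append, h, ← h1]
      have := (words Ω).act_reverse x.reverse root
      rwa [List.reverse_reverse] at this
    obtain ⟨m, hm, -, h3⟩ := Sys.exists_red.{v} (x.reverse ++ (l ++ x))
    rw [h3] at h2
    have h4 := congrArg Subtype.val h2
    rw [act_words_nil _ hm] at h4
    have h5 : m = [] := by simpa [hroot] using h4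
    rw [h5] at h3
    have h6 : (words Ω).act l root = root := by
      have h7 := h3 (words Ω) ((words Ω).act x root)
      rw [Sys.act_append, Sys.act_reverse, Sys.act_append, Sys.act_nil] at h7
      have h8 := congrArg ((words Ω).act x.reverse) h7
      rwa [Sys.act_reverse, Sys.act_reverse] at h8
    have h9 := congrArg Subtype.val h6
    rw [act_words_nil _ hl] at h9
    simpa [hroot] using h9
  trans x y := by
    obtain ⟨x, hx⟩ := x
    obtain ⟨y, hy⟩ := y
    have hx' : Sys.Red x.reverse := by
      unfold Sys.Red
      rw [List.isChain_reverse]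
      exact hx.imp fun a b hab => hab.symm
    have hy' : Sys.Red y.reverse := by
      unfold Sys.Red
      rw [List.isChain_reverse]
      exact hy.imp fun a b hab => hab.symm
    refine ⟨x ++ y.reverse, ?_⟩
    have h1 : (words Ω).act x.reverse ⟨[], List.isChain_nil⟩ = ⟨x, hx⟩ := by
      apply Subtype.ext
      rw [act_words_nil _ hx', List.reverse_reverse]
    rw [Sys.act_append, ← h1, Sys.act_reverse']
    apply Subtype.ext
    rw [act_words_nil _ hy', List.reverse_reverse]

end words

/-- for every non-empty set of colours there is a coloured tree -/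
theorem exists_tree (Ω : Type v) [Nonempty Ω] : ∃ V : Type v, Nonempty (ColTree V Ω) := by
  classical
  have : Nonempty {l : List Ω // Sys.Red l} := ⟨⟨[], List.isChain_nil⟩⟩
  exact ⟨_, exists_colTree (words Ω) (isTree_words Ω)⟩

end Pool.Agent.W657.BM
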