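import Pool.Agent.W657.BM.Cr

/-!
# Isomorphic groups have isomorphic reduced C*-algebras
-/

set_option autoImplicit false

open Topology MeasureTheory Measure
open scoped NNReal ENNReal

namespace Pool.Agent.W657.BM

universe u v

section comp

variable {α : Type u} {β : Type v} [MeasurableSpace α] [MeasurableSpace β] {μ : Measure α}
  {ν : Measure β}

theorem quasi (Ψ : β ≃ᵐ α) {k : ℝ≥0} (h : map Ψ ν = k • μ) {P : α → Prop} (hP : ∀ᵐ y ∂μ, P y) :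
    ∀ᵐ x ∂ν, P (Ψ x) := by
  have h1 : ∀ᵐ y ∂(map Ψ ν), P y := by
    rw [h]
    exact Measure.ae_smul_measure hP k
  exact ae_of_ae_map Ψ.measurable.aemeasurable h1

theorem memLp_comp (Ψ : β ≃ᵐ α) {k : ℝ≥0} (h : map Ψ ν = k • μ) (u : Lp ℂ 2 μ) :
    MemLp (fun x => u (Ψ x)) 2 ν := by
  have h1 : MemLp u 2 (map Ψ ν) := by
    rw [h]
    exact (Lp.memLp u).smul_measure (by simp)
  exact (memLp_map_measure_iff h1.1 Ψ.measurable.aemeasurable).1 h1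

theorem eLpNorm_comp (Ψ : β ≃ᵐ α) {k : ℝ≥0} (h : map Ψ ν = k • μ) (u : Lp ℂ 2 μ) :
    eLpNorm (fun x => u (Ψ x)) 2 ν = k ^ (2 : ℝ≥0∞).toReal⁻¹ • eLpNorm u 2 μ := by
  have h1 : MemLp u 2 (map Ψ ν) := by
    rw [h]
    exact (Lp.memLp u).smul_measure (by simp)
  rw [← eLpNorm_smul_measure_of_ne_top' (by norm_num), ← h,
    eLpNorm_map_measure h1.1 Ψ.measurable.aemeasurable]
  rfl

theorem exists_comp (Ψ : β ≃ᵐ α) {k : ℝ≥0} (hk : k ≠ 0) (h : map Ψ ν = k • μ) :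
    ∃ W : Lp ℂ 2 μ →ₗᵢ[ℂ] Lp ℂ 2 ν,
      ∀ u : Lp ℂ 2 μ, W u =ᵐ[ν] fun x => (((k ^ (2 : ℝ≥0∞).toReal⁻¹)⁻¹ : ℝ≥0) : ℂ) * u (Ψ x) := by
  set r : ℝ≥0 := (k ^ (2 : ℝ≥0∞).toReal⁻¹)⁻¹ with hr
  have hm : ∀ u : Lp ℂ 2 μ, MemLp (fun x => (r : ℂ) * u (Ψ x)) 2 ν := fun u =>
    (memLp_comp Ψ h u).const_mul _
  refine ⟨{
    toFun := fun u => (hm u).toLp _
    map_add' := ?_
    map_smul' := ?_
    norm_map' := ?_ }, ?_⟩
  · intro u v
    apply Lp.ext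
    refine (hm (u + v)).coeFn_toLp.trans ?_
    refine Filter.EventuallyEq.trans ?_ (Lp.coeFn_add _ _).symm
    have h1 : ∀ᵐ x ∂ν, (u + v : Lp ℂ 2 μ) (Ψ x) = u (Ψ x) + v (Ψ x) := by
      have := Lp.coeFn_add u v
      exact quasi Ψ h this
    filter_upwards [h1, (hm u).coeFn_toLp, (hm v).coeFn_toLp] with x h2 h3 h4
    rw [h2, Pi.add_apply, h3, h4, mul_add]
  · intro c u
    apply Lp.ext
    refine (hm (c • u)).coeFn_toLp.trans ?_
    refine Filter.EventuallyEq.trans ?_ (Lp.coeFn_smul _ _).symm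
    have h1 : ∀ᵐ x ∂ν, (c • u : Lp ℂ 2 μ) (Ψ x) = c • u (Ψ x) := by
      have := Lp.coeFn_smul c u
      exact quasi Ψ h this
    filter_upwards [h1, (hm u).coeFn_toLp] with x h2 h3
    rw [h2, Pi.smul_apply, RingHom.id_apply, h3, smul_eq_mul, smul_eq_mul]
    ring
  · intro u
    show ‖(hm u).toLp _‖ = ‖u‖
    rw [Lp.norm_toLp, Lp.norm_def]
    congr 1
    have h1 : (fun x => (r : ℂ) * u (Ψ x)) = (r : ℂ) • (fun x => u (Ψ x)) := rfl
    rw [h1, eLpNorm_const_smul, eLpNorm_comp Ψ h]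
    have h2 : ‖(r : ℂ)‖ₑ = (r : ℝ≥0∞) := by
      rw [enorm_eq_nnnorm]
      congr 1
      ext
      simp
    rw [h2, ENNReal.smul_def, smul_eq_mul, ← mul_assoc, ← ENNReal.coe_mul, hr, inv_mul_cancel₀,
      ENNReal.coe_one, one_mul]
    exact (NNReal.rpow_pos (pos_iff_ne_zero.2 hk)).ne'
  · intro u
    exact (hm u).coeFn_toLp

theorem exists_unitary (Ψ : β ≃ᵐ α) {k : ℝ≥0} (hk : k ≠ 0) (h : map Ψ ν = k • μ) :
    ∃ W : Lp ℂ 2 μ ≃ₗᵢ[ℂ] Lp ℂ 2 ν, ∃ r : ℂ, r ≠ 0 ∧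
      (∀ u : Lp ℂ 2 μ, W u =ᵐ[ν] fun x => r * u (Ψ x)) ∧
      ∀ v : Lp ℂ 2 ν, W.symm v =ᵐ[μ] fun y => r⁻¹ * v (Ψ.symm y) := by
  have h' : map Ψ.symm μ = k⁻¹ • ν := by
    have h1 : map Ψ.symm (map Ψ ν) = ν := by
      rw [Measure.map_map Ψ.symm.measurable Ψ.measurable]
      simp
    rw [h, Measure.map_smul] at h1
    rw [← h1, smul_smul, inv_mul_cancel₀ hk, one_smul]
  obtain ⟨W, hW⟩ := exists_comp Ψ hk h
  obtain ⟨W', hW'⟩ := exists_comp Ψ.symm (inv_ne_zero hk) h'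
  set r : ℝ≥0 := (k ^ (2 : ℝ≥0∞).toReal⁻¹)⁻¹ with hr
  have hr0 : (r : ℂ) ≠ 0 := by
    have : r ≠ 0 := inv_ne_zero (NNReal.rpow_pos (pos_iff_ne_zero.2 hk)).ne'
    exact_mod_cast this
  have hr' : ((k⁻¹ ^ (2 : ℝ≥0∞).toReal⁻¹)⁻¹ : ℝ≥0) = r⁻¹ := by
    rw [hr, NNReal.inv_rpow]
  rw [hr'] at hW'
  have h1 : ∀ v, W (W' v) = v := by
    intro v
    apply Lp.ext
    refine (hW _).trans ?_
    have h2 := quasi Ψ h (hW' v)
    filter_upwards [h2] with x hx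
    rw [hx]
    simp [hr0]
  have h2 : Function.Surjective W := fun v => ⟨W' v, h1 v⟩
  refine ⟨LinearIsometryEquiv.ofSurjective W h2, r, hr0, hW, ?_⟩
  intro v
  have h3 : (LinearIsometryEquiv.ofSurjective W h2).symm v = W' v := by
    apply (LinearIsometryEquiv.ofSurjective W h2).injective
    rw [LinearIsometryEquiv.apply_symm_apply]
    exact (h1 v).symm
  rw [h3]
  refine (hW' v).trans ?_
  simp

end comp

section conv

variable {G : Type u} {H : Type v} [Group G] [TopologicalSpace G] [MeasurableSpace G] [BorelSpace G]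
  [Group H] [TopologicalSpace H] [MeasurableSpace H] [BorelSpace H]

/-- `T` is the operator of left convolution by `f` -/
def IsConvLp {G : Type u} [Group G] [TopologicalSpace G] [MeasurableSpace G] (μ : Measure G)
    (f : G → ℂ) (T : Lp ℂ 2 μ →L[ℂ] Lp ℂ 2 μ) : Prop :=
  ∀ (ξ : G → ℂ) (u : Lp ℂ 2 μ), Continuous ξ → HasCompactSupport ξ → u =ᵐ[μ] ξ →
    T u =ᵐ[μ] fun x => ∫ y, f y * ξ (y⁻¹ * x) ∂μ

omit [BorelSpace G] [BorelSpace H] in
theorem transport (Φ : G ≃ₜ* H) (Ψ : H ≃ᵐ G) (hΨ : ∀ x, Ψ x = Φ.symm x) {μ : Measure G}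
    {ν : Measure H} {k : ℝ≥0} (hk : k ≠ 0) (h : map Ψ ν = k • μ) (W : Lp ℂ 2 μ ≃ₗᵢ[ℂ] Lp ℂ 2 ν)
    {r : ℂ} (hr : r ≠ 0) (hW : ∀ u : Lp ℂ 2 μ, W u =ᵐ[ν] fun x => r * u (Ψ x))
    (hW' : ∀ v : Lp ℂ 2 ν, W.symm v =ᵐ[μ] fun y => r⁻¹ * v (Ψ.symm y))
    {T : Lp ℂ 2 μ →L[ℂ] Lp ℂ 2 μ} (hT : ∃ f, Integrable f μ ∧ IsConvLp μ f T) :
    ∃ f, Integrable f ν ∧ IsConvLp ν f (W.conjStarAlgEquiv T) := by
  obtain ⟨f, hf, hT⟩ := hT
  have hΨ' : ∀ y, Ψ.symm y = Φ y := by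
    intro y
    apply Ψ.injective
    rw [Ψ.apply_symm_apply, hΨ]
    exact (Φ.symm_apply_apply y).symm
  refine ⟨fun w => ((k⁻¹ : ℝ≥0) : ℂ) * f (Ψ w), ?_, ?_⟩
  · apply Integrable.const_mul
    have h1 : Integrable f (map Ψ ν) := by
      rw [h]
      exact hf.smul_measure_nnreal
    exact (integrable_map_measure h1.1 Ψ.measurable.aemeasurable).1 h1
  · intro ξ v hξ hξc hv
    -- the function on the other side
    have h' : map Ψ.symm μ = k⁻¹ • ν := by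
      have h1 : map Ψ.symm (map Ψ ν) = ν := by
        rw [Measure.map_map Ψ.symm.measurable Ψ.measurable]
        simp
      rw [h, Measure.map_smul] at h1
      rw [← h1, smul_smul, inv_mul_cancel₀ hk, one_smul]
    have h1 : W.symm v =ᵐ[μ] fun y => r⁻¹ * ξ (Φ y) := by
      have h2 := quasi Ψ.symm h' hv
      filter_upwards [hW' v, h2] with y h3 h4
      rw [h3, h4, hΨ']
    have h2 := hT (fun y => r⁻¹ * ξ (Φ y)) (W.symm v) (by
      exact continuous_const.mul (hξ.comp Φ.continuous_toFun)) (by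
      exact (hξc.comp_homeomorph Φ.toHomeomorph).mul_left) h1
    have h3 : (W.conjStarAlgEquiv T) v = W (T (W.symm v)) := rfl
    rw [h3]
    refine (hW _).trans ?_
    have h4 := quasi Ψ h h2
    filter_upwards [h4] with z hz
    rw [hz]
    have h5 : ∀ y, f y * (r⁻¹ * ξ (Φ (y⁻¹ * Ψ z))) = r⁻¹ * (f y * ξ ((Φ y)⁻¹ * z)) := by
      intro y
      have : Φ (y⁻¹ * Ψ z) = (Φ y)⁻¹ * z := by
        rw [map_mul, map_inv, hΨ]
        congr 1
        exact Φ.apply_symm_apply z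
      rw [this]
      ring
    simp_rw [h5]
    rw [integral_const_mul, ← mul_assoc, mul_inv_cancel₀ hr, one_mul]
    have h6 : μ = k⁻¹ • map Ψ ν := by
      rw [h, smul_smul, inv_mul_cancel₀ hk, one_smul]
    have h7 : ∫ y, f y * ξ ((Φ y)⁻¹ * z) ∂μ =
        (k⁻¹ : ℝ≥0) • ∫ y, f y * ξ ((Φ y)⁻¹ * z) ∂(map Ψ ν) := by
      conv_lhs => rw [h6]
      exact integral_smul_nnreal_measure _ _
    rw [h7, integral_map_equiv, NNReal.smul_def, ← integral_smul]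
    apply integral_congr_ae
    filter_upwards with w
    have h8 : Φ (Ψ w) = w := by
      rw [hΨ]
      exact Φ.apply_symm_apply w
    rw [h8, Complex.real_smul]
    push_cast
    ring

end conv

section main

variable {G : Type u} {H : Type v} [Group G] [TopologicalSpace G] [MeasurableSpace G] [BorelSpace G]
  [Group H] [TopologicalSpace H] [MeasurableSpace H] [BorelSpace H] [IsTopologicalGroup G]
  [IsTopologicalGroup H] [LocallyCompactSpace G] [LocallyCompactSpace H]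

/-- isomorphic locally compact groups have isomorphic reduced C*-algebras -/
theorem starIso_of_iso (Φ : G ≃ₜ* H) (μ : Measure G) (ν : Measure H) [μ.IsHaarMeasure] [μ.Regular]
    [ν.IsHaarMeasure] [ν.Regular] :
    StarIso (Gen {T : Lp ℂ 2 μ →L[ℂ] Lp ℂ 2 μ | ∃ f, Integrable f μ ∧ IsConvLp μ f T} :
        Set (Lp ℂ 2 μ →L[ℂ] Lp ℂ 2 μ))
      (Gen {T : Lp ℂ 2 ν →L[ℂ] Lp ℂ 2 ν | ∃ f, Integrable f ν ∧ IsConvLp ν f T} :
        Set (Lp ℂ 2 ν →L[ℂ] Lp ℂ 2 ν)) := by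
  let Ψ : H ≃ᵐ G := Φ.symm.toHomeomorph.toMeasurableEquiv
  have hΨ : ∀ x, Ψ x = Φ.symm x := fun x => rfl
  have hΨ' : ∀ x, Ψ.symm x = Φ x := fun x => rfl
  have h1 : (map Ψ ν).IsHaarMeasure := ContinuousMulEquiv.isHaarMeasure_map ν Φ.symm
  have h2 : (map Ψ ν).Regular := Measure.Regular.map Φ.symm.toHomeomorph
  obtain ⟨k, h4, h3⟩ : ∃ k : ℝ≥0, k ≠ 0 ∧ map Ψ ν = k • μ :=
    ⟨_, (haarScalarFactor_pos_of_isHaarMeasure _ _).ne',
      isMulLeftInvariant_eq_smul_of_regular (map Ψ ν) μ⟩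
  obtain ⟨W, r, hr, hW, hW'⟩ := exists_unitary Ψ h4 h3
  refine starIso_of_conj W ?_ ?_
  · intro a ha
    exact transport Φ Ψ hΨ h4 h3 W hr hW hW' ha
  · intro a ha
    have h5 : map Ψ.symm μ = k⁻¹ • ν := by
      have h6 : map Ψ.symm (map Ψ ν) = ν := by
        rw [Measure.map_map Ψ.symm.measurable Ψ.measurable]
        simp
      rw [h3, Measure.map_smul] at h6
      rw [← h6, smul_smul, inv_mul_cancel₀ h4, one_smul]
    refine transport Φ.symm Ψ.symm hΨ' (inv_ne_zero h4) h5 W.symm (inv_ne_zero hr) hW' ?_ ha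
    intro v
    rw [inv_inv]
    exact hW v

end main

end Pool.Agent.W657.BM
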