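import Pool.Agent.W657.BM.Exist
import Pool.Agent.W657.BM.Meas

/-!
# Concrete definitions for the final statement
-/

set_option autoImplicit false

open Topology MeasureTheory Measure

namespace Pool.Agent.W657.BM

universe u v

/-- The Hilbert space `L²(α, μ)` of complex valued functions. -/
def LTwo {α : Type u} [MeasurableSpace α] (μ : Measure α) : Type u := Lp ℂ 2 μ

namespace LTwo

variable {α : Type u} [MeasurableSpace α] {μ : Measure α}

noncomputable instance instN : NormedAddCommGroup (LTwo μ) :=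
  Lp.instNormedAddCommGroup (E := ℂ) (p := 2) (μ := μ)

noncomputable instance instI : InnerProductSpace ℂ (LTwo μ) :=
  MeasureTheory.L2.innerProductSpace (𝕜 := ℂ) (E := ℂ) (μ := μ)

instance instC : CompleteSpace (LTwo μ) :=
  Lp.instCompleteSpace (E := ℂ) (p := 2) (μ := μ)

/-- a function in the class `u ∈ L²(α, μ)` -/
noncomputable def fn (u : LTwo μ) : α → ℂ := AEEqFun.cast (Subtype.val u)

end LTwo

/-- `T` is the operator `λ(f)` of the left regular representation on `L²(G, μ)`, i.e. left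
convolution by `f`: for all `ξ ∈ C_c(G)`, `(T ξ)(x) = ∫ f(y) ξ(y⁻¹ x) dμ(y)` for almost all `x`. -/
def IsConv {G : Type u} [Group G] [TopologicalSpace G] [MeasurableSpace G] (μ : Measure G)
    (f : G → ℂ) (T : LTwo μ →L[ℂ] LTwo μ) : Prop :=
  ∀ (ξ : G → ℂ) (u : LTwo μ), Continuous ξ → HasCompactSupport ξ → u.fn =ᵐ[μ] ξ →
    (T u).fn =ᵐ[μ] fun x => ∫ y, f y * ξ (y⁻¹ * x) ∂μ

/-- the set of all operators `λ(f)`, `f ∈ L¹(G, μ)` -/
def convOps {G : Type u} [Group G] [TopologicalSpace G] [MeasurableSpace G] (μ : Measure G) :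
    Set (LTwo μ →L[ℂ] LTwo μ) :=
  {T | ∃ f : G → ℂ, Integrable f μ ∧ IsConv μ f T}

/-- the reduced group C*-algebra with respect to the Haar measure `μ`: the C*-algebra of operators
on `L²(G, μ)` generated by all operators `λ(f)`, `f ∈ L¹(G, μ)` -/
def redAlg {G : Type u} [Group G] [TopologicalSpace G] [MeasurableSpace G]
    (μ : Measure G) : Set (LTwo μ →L[ℂ] LTwo μ) :=
  GenSet (convOps μ)

/-- The reduced group C*-algebras `C_r^*(G)` and `C_r^*(H)` of the locally compact groups `G` and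
`H` are `*`-isomorphic. -/
def ReducedIso (G : Type u) (H : Type v) [Group G] [TopologicalSpace G] [IsTopologicalGroup G]
    [LocallyCompactSpace G] [MeasurableSpace G] [BorelSpace G] [Group H] [TopologicalSpace H]
    [IsTopologicalGroup H] [LocallyCompactSpace H] [MeasurableSpace H] [BorelSpace H] : Prop :=
  StarIso (redAlg (haar : Measure G)) (redAlg (haar : Measure H))

/-- The permutation groups `F₁` on `Ω₁` and `F₂` on `Ω₂` are permutation isomorphic. -/
def PermIso {Ω₁ : Type u} {Ω₂ : Type v} (F₁ : Subgroup (Equiv.Perm Ω₁))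
    (F₂ : Subgroup (Equiv.Perm Ω₂)) : Prop :=
  ∃ e : Ω₁ ≃ Ω₂, ∀ p : Equiv.Perm Ω₁, p ∈ F₁ ↔ e.permCongr p ∈ F₂

instance instMeasurableSpaceU {V : Type u} {Ω : Type v} (t : ColTree V Ω)
    (F : Subgroup (Equiv.Perm Ω)) : MeasurableSpace (U t F) := borel _

instance instBorelSpaceU {V : Type u} {Ω : Type v} (t : ColTree V Ω)
    (F : Subgroup (Equiv.Perm Ω)) : BorelSpace (U t F) := ⟨rfl⟩

theorem reducedIso_of_iso {G : Type u} {H : Type v} [Group G] [TopologicalSpace G]
    [IsTopologicalGroup G] [LocallyCompactSpace G] [MeasurableSpace G] [BorelSpace G] [Group H]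
    [TopologicalSpace H] [IsTopologicalGroup H] [LocallyCompactSpace H] [MeasurableSpace H]
    [BorelSpace H] (Φ : G ≃ₜ* H) : ReducedIso G H :=
  starIso_of_iso Φ (haar : Measure G) (haar : Measure H)

theorem not_permIso {Ω : Type u} [Fintype Ω] (hΩ : 2 ≤ Fintype.card Ω)
    (F : Subgroup (Equiv.Perm Ω)) : ¬ PermIso (addPt F) (wreath F) := by
  rintro ⟨e, -⟩
  have h := Fintype.card_congr e
  rw [Fintype.card_option, Fintype.card_prod, Fintype.card_bool] at h
  omega

theorem final (Ω : Type u) [Fintype Ω] (hΩ : 2 ≤ Fintype.card Ω)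
    (F : Subgroup (Equiv.Perm Ω)) (hF : F ≠ ⊥) :
    3 ≤ Fintype.card (Option Ω) ∧ 3 ≤ Fintype.card (Ω × Bool) ∧
    ¬ PermIso (addPt F) (wreath F) ∧
    (∃ V : Type u, Nonempty (ColTree V (Option Ω))) ∧
    (∃ V : Type u, Nonempty (ColTree V (Ω × Bool))) ∧
    ∀ (V W : Type u) (t₁ : ColTree V (Option Ω)) (t₂ : ColTree W (Ω × Bool)),
      ¬ DiscreteTopology (U t₁ (addPt F)) ∧ ¬ DiscreteTopology (U t₂ (wreath F)) ∧
      ReducedIso (U t₁ (addPt F)) (U t₂ (wreath F)) := by
  have hne : Nonempty Ω := Fintype.card_pos_iff.1 (by omega)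
  refine ⟨by rw [Fintype.card_option]; omega,
    by rw [Fintype.card_prod, Fintype.card_bool]; omega, not_permIso hΩ F, exists_tree _,
    exists_tree _, ?_⟩
  intro V W t₁ t₂
  obtain ⟨Φ⟩ := nonempty_iso_U t₁ t₂ F
  refine ⟨not_discrete_U t₁ hF, fun h => not_discrete_U t₁ hF ?_, reducedIso_of_iso Φ⟩
  exact Φ.toHomeomorph.isEmbedding.discreteTopology

end Pool.Agent.W657.BM
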