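import Pool.Agent.W657.BM.Sys

/-!
# The groups with prescribed local actions
-/

set_option autoImplicit false

open Topology

namespace Pool.Agent.W657.BM

universe u v w

/-- the topology of pointwise convergence (`V` is discrete) -/
instance permTopology {V : Type u} : TopologicalSpace (Equiv.Perm V) :=
  TopologicalSpace.induced (fun g => (g : V → V)) (@Pi.topologicalSpace V (fun _ => V) fun _ => ⊥)

section topology

variable {V : Type u}

theorem isOpen_eval (x y : V) : IsOpen {g : Equiv.Perm V | g x = y} := by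
  let _ : TopologicalSpace V := ⊥
  have _ : DiscreteTopology V := ⟨rfl⟩
  have h1 : IsOpen ((fun f : V → V => f x) ⁻¹' ({y} : Set V)) :=
    (isOpen_discrete ({y} : Set V)).preimage (continuous_apply x)
  exact h1.preimage continuous_induced_dom

theorem continuous_perm_iff {Z : Type w} [TopologicalSpace Z] {φ : Z → Equiv.Perm V} :
    Continuous φ ↔ ∀ x y, IsOpen {z | φ z x = y} := by
  constructor
  · intro h x y
    exact (isOpen_eval x y).preimage h
  · intro h
    let _ : TopologicalSpace V := ⊥
    have _ : DiscreteTopology V := ⟨rfl⟩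
    rw [continuous_induced_rng, continuous_pi_iff]
    intro x
    rw [continuous_discrete_rng]
    intro y
    exact h x y

instance : IsTopologicalGroup (Equiv.Perm V) where
  continuous_mul := by
    rw [continuous_perm_iff]
    intro x y
    have : {q : Equiv.Perm V × Equiv.Perm V | (q.1 * q.2) x = y} =
        ⋃ z : V, (Prod.snd ⁻¹' {g : Equiv.Perm V | g x = z}) ∩
          (Prod.fst ⁻¹' {g : Equiv.Perm V | g z = y}) := by
      ext q
      simp
    rw [this]
    exact isOpen_iUnion fun z => ((isOpen_eval x z).preimage continuous_snd).inter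
      ((isOpen_eval z y).preimage continuous_fst)
  continuous_inv := by
    rw [continuous_perm_iff]
    intro x y
    have : {g : Equiv.Perm V | g⁻¹ x = y} = {g : Equiv.Perm V | g y = x} := by
      ext g
      simp only [Set.mem_ofPred_eq]
      rw [Equiv.Perm.inv_eq_iff_eq]
      exact eq_comm
    rw [this]
    exact isOpen_eval y x

end topology

variable {V : Type u} {Ω : Type v}

/-- the group of all permutations of `V` with all local actions in `F` -/
def Grp (A : Sys V Ω) (F : Subgroup (Equiv.Perm Ω)) : Subgroup (Equiv.Perm V) where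
  carrier := {g | ∀ x, ∃ p ∈ F, ∀ i, g (A.κ i x) = A.κ (p i) (g x)}
  mul_mem' := by
    intro g h hg hh x
    obtain ⟨p, hp, h1⟩ := hh x
    obtain ⟨q, hq, h2⟩ := hg (h x)
    refine ⟨q * p, F.mul_mem hq hp, fun i => ?_⟩
    show g (h (A.κ i x)) = A.κ (q (p i)) (g (h x))
    rw [h1, h2]
  one_mem' := fun x => ⟨1, F.one_mem, fun i => rfl⟩
  inv_mem' := by
    intro g hg x
    obtain ⟨p, hp, h1⟩ := hg (g⁻¹ x)
    refine ⟨p⁻¹, F.inv_mem hp, fun i => ?_⟩
    rw [Equiv.Perm.inv_eq_iff_eq, h1]
    simp

theorem mem_Grp {A : Sys V Ω} {F : Subgroup (Equiv.Perm Ω)} {g : Equiv.Perm V} :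
    g ∈ Grp A F ↔ ∀ x, ∃ p ∈ F, ∀ i, g (A.κ i x) = A.κ (p i) (g x) := Iff.rfl

/-- the permutation group on one more point, which is fixed -/
def addPt (F : Subgroup (Equiv.Perm Ω)) : Subgroup (Equiv.Perm (Option Ω)) where
  carrier := {p | p none = none ∧ ∃ a ∈ F, ∀ i, p (some i) = some (a i)}
  mul_mem' := by
    rintro p q ⟨hp, a, ha, h1⟩ ⟨hq, b, hb, h2⟩
    refine ⟨?_, a * b, F.mul_mem ha hb, fun i => ?_⟩
    · show p (q none) = none
      rw [hq, hp]
    · show p (q (some i)) = some (a (b i))
      rw [h2, h1]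
  one_mem' := ⟨rfl, 1, F.one_mem, fun i => rfl⟩
  inv_mem' := by
    rintro p ⟨hp, a, ha, h1⟩
    refine ⟨?_, a⁻¹, F.inv_mem ha, fun i => ?_⟩
    · rw [Equiv.Perm.inv_eq_iff_eq, hp]
    · rw [Equiv.Perm.inv_eq_iff_eq, h1]
      simp

/-- the wreath product of `F` with the symmetric group of `Bool`, acting on `Ω × Bool` -/
def wreath (F : Subgroup (Equiv.Perm Ω)) : Subgroup (Equiv.Perm (Ω × Bool)) where
  carrier := {p | ∃ (a : Bool → Equiv.Perm Ω) (t : Equiv.Perm Bool), (∀ s, a s ∈ F) ∧
    ∀ i s, p (i, s) = (a s i, t s)}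
  mul_mem' := by
    rintro p q ⟨a, t, ha, h1⟩ ⟨b, r, hb, h2⟩
    refine ⟨fun s => a (r s) * b s, t * r, fun s => F.mul_mem (ha _) (hb _), fun i s => ?_⟩
    show p (q (i, s)) = _
    rw [h2, h1]
    rfl
  one_mem' := ⟨fun _ => 1, 1, fun _ => F.one_mem, fun i s => rfl⟩
  inv_mem' := by
    rintro p ⟨a, t, ha, h1⟩
    refine ⟨fun s => (a (t⁻¹ s))⁻¹, t⁻¹, fun s => F.inv_mem (ha _), fun i s => ?_⟩
    rw [Equiv.Perm.inv_eq_iff_eq, h1]
    simp

/-! ### The isomorphism -/

section iso

variable {A : Sys V (Ω × Bool)} {F : Subgroup (Equiv.Perm Ω)}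

theorem split_flip {g : Equiv.Perm (V × Bool)} (hg : g ∈ Grp (Sys.split A) (addPt F)) (x : V)
    (s : Bool) : g (x, !s) = ((g (x, s)).1, !(g (x, s)).2) := by
  obtain ⟨p, hp, h⟩ := hg (x, s)
  have := h none
  rw [hp.1] at this
  exact this

theorem split_fst {g : Equiv.Perm (V × Bool)} (hg : g ∈ Grp (Sys.split A) (addPt F)) (x : V)
    (s : Bool) : (g (x, s)).1 = (g (x, false)).1 := by
  cases s with
  | false => rfl
  | true =>
    show (g (x, !false)).1 = _
    rw [split_flip hg]

theorem split_local {g : Equiv.Perm (V × Bool)} (hg : g ∈ Grp (Sys.split A) (addPt F)) (x : V)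
    (s : Bool) : ∃ a ∈ F, ∀ i, (g (A.κ (i, s) x, false)).1 =
      A.κ (a i, (g (x, s)).2) (g (x, false)).1 ∧ (g (A.κ (i, s) x, s)).2 = (g (x, s)).2 := by
  obtain ⟨p, ⟨hp, a, ha, h1⟩, h⟩ := hg (x, s)
  refine ⟨a, ha, fun i => ?_⟩
  have h2 := h (some i)
  rw [h1, Sys.split_some, Sys.split_some] at h2
  have h3 := congrArg Prod.fst h2
  have h4 := congrArg Prod.snd h2
  refine ⟨?_, h4⟩
  rw [← split_fst hg (A.κ (i, s) x) s, h3, ← split_fst hg x s]

theorem split_det {g h : Equiv.Perm (V × Bool)} (hg : g ∈ Grp (Sys.split A) (addPt F))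
    (hh : h ∈ Grp (Sys.split A) (addPt F)) (i₀ : Ω) (x : V) (s : Bool)
    (h1 : (g (x, false)).1 = (h (x, false)).1)
    (h2 : (g (A.κ (i₀, s) x, false)).1 = (h (A.κ (i₀, s) x, false)).1) : g (x, s) = h (x, s) := by
  obtain ⟨a, -, ha⟩ := split_local hg x s
  obtain ⟨b, -, hb⟩ := split_local hh x s
  have h3 := (ha i₀).1
  rw [h2, (hb i₀).1, h1] at h3
  have h4 := A.inj _ _ _ h3
  apply Prod.ext
  · rw [split_fst hg, split_fst hh, h1]
  · exact (congrArg Prod.snd h4).symm

/-- forget the sides -/
def down (g : Grp (Sys.split A) (addPt F)) : Equiv.Perm V where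
  toFun x := (g.1 (x, false)).1
  invFun x := (g⁻¹.1 (x, false)).1
  left_inv x := by
    show (g⁻¹.1 ((g.1 (x, false)).1, false)).1 = x
    rw [← split_fst g⁻¹.2 _ (g.1 (x, false)).2]
    show (g⁻¹.1 (g.1 (x, false))).1 = x
    have : g⁻¹.1 (g.1 (x, false)) = (x, false) := g.1.symm_apply_apply _
    rw [this]
  right_inv x := by
    show (g.1 ((g⁻¹.1 (x, false)).1, false)).1 = x
    rw [← split_fst g.2 _ (g⁻¹.1 (x, false)).2]
    show (g.1 (g⁻¹.1 (x, false))).1 = x
    have : g.1 (g⁻¹.1 (x, false)) = (x, false) := g.1.apply_symm_apply _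
    rw [this]

theorem down_apply (g : Grp (Sys.split A) (addPt F)) (x : V) : down g x = (g.1 (x, false)).1 := rfl

theorem down_mem (g : Grp (Sys.split A) (addPt F)) : down g ∈ Grp A (wreath F) := by
  intro x
  have h1 : ∀ s, ∃ a ∈ F, ∀ i, (g.1 (A.κ (i, s) x, false)).1 =
      A.κ (a i, (g.1 (x, s)).2) (g.1 (x, false)).1 := by
    intro s
    obtain ⟨a, ha, h⟩ := split_local g.2 x s
    exact ⟨a, ha, fun i => (h i).1⟩
  choose a ha h using h1
  have hflip : (g.1 (x, true)).2 = !(g.1 (x, false)).2 :=
    congrArg Prod.snd (split_flip g.2 x false)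
  have hinj : Function.Injective (fun s : Bool => (g.1 (x, s)).2) := by
    have hne : (g.1 (x, false)).2 ≠ (g.1 (x, true)).2 := by
      rw [hflip]
      cases (g.1 (x, false)).2 <;> simp
    intro s t hst
    cases s <;> cases t
    · rfl
    · exact absurd hst hne
    · exact absurd hst.symm hne
    · rfl
  let t : Equiv.Perm Bool := Equiv.ofBijective _ (Finite.injective_iff_bijective.1 hinj)
  let p : Equiv.Perm (Ω × Bool) :=
    { toFun := fun q => (a q.2 q.1, t q.2)
      invFun := fun q => ((a (t.symm q.2)).symm q.1, t.symm q.2)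
      left_inv := fun q => by simp
      right_inv := fun q => by simp }
  refine ⟨p, ⟨a, t, ha, fun i s => rfl⟩, ?_⟩
  rintro ⟨i, s⟩
  exact h s i

theorem down_bijective [Nonempty Ω] : Function.Bijective
    (fun g : Grp (Sys.split A) (addPt F) => (⟨down g, down_mem g⟩ : Grp A (wreath F))) := by
  classical
  obtain ⟨i₀⟩ := ‹Nonempty Ω›
  constructor
  · intro g h hgh
    have h1 : ∀ x, (g.1 (x, false)).1 = (h.1 (x, false)).1 := fun x =>
      congrArg (fun k : Grp A (wreath F) => k.1 x) hgh
    apply Subtype.ext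
    apply Equiv.ext
    rintro ⟨x, s⟩
    exact split_det g.2 h.2 i₀ x s (h1 _) (h1 _)
  · rintro ⟨h, hh⟩
    -- local data
    have h1 : ∀ x, ∃ (a : Bool → Equiv.Perm Ω) (t : Equiv.Perm Bool), (∀ s, a s ∈ F) ∧
        ∀ i s, h (A.κ (i, s) x) = A.κ (a s i, t s) (h x) := by
      intro x
      obtain ⟨p, ⟨a, t, ha, h2⟩, h3⟩ := hh x
      exact ⟨a, t, ha, fun i s => by rw [h3, h2]⟩
    choose a t ha hloc using h1
    have ht : ∀ x i s, t (A.κ (i, s) x) s = t x s := by
      intro x i s
      have h2 := hloc (A.κ (i, s) x) i s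
      rw [A.inv, hloc x] at h2
      have h3 := congrArg (A.κ (a x s i, t x s)) h2
      have h4 : A.κ (a x s i, t x s) (h x) =
          A.κ (a (A.κ (i, s) x) s i, t (A.κ (i, s) x) s) (h x) := by
        have h5 := congrArg (A.κ (a (A.κ (i, s) x) s i, t (A.κ (i, s) x) s)) h2
        rw [A.inv] at h5
        exact h5.symm
      exact (congrArg Prod.snd (A.inj _ _ _ h4)).symm
    let g : Equiv.Perm (V × Bool) :=
      { toFun := fun p => (h p.1, t p.1 p.2)
        invFun := fun p => (h.symm p.1, (t (h.symm p.1)).symm p.2)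
        left_inv := fun p => by simp
        right_inv := fun p => by simp }
    have hg : g ∈ Grp (Sys.split A) (addPt F) := by
      rintro ⟨x, s⟩
      let p : Equiv.Perm (Option Ω) := (a x s).optionCongr
      refine ⟨p, ⟨rfl, a x s, ha x s, fun i => rfl⟩, ?_⟩
      intro i
      cases i with
      | none =>
        show (h x, t x (!s)) = (h x, !(t x s))
        congr 1
        have := (t x).injective.ne (show s ≠ !s by cases s <;> simp)
        revert this
        cases (t x s) <;> cases (t x (!s)) <;> simp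
      | some i =>
        show (h (A.κ (i, s) x), t (A.κ (i, s) x) s) = (A.κ (a x s i, t x s) (h x), t x s)
        rw [ht, hloc]
    refine ⟨⟨g, hg⟩, ?_⟩
    apply Subtype.ext
    apply Equiv.ext
    intro x
    rfl

/-- The topological groups with local actions in `F` (with one more fixed colour) on the split
tree and with local actions in the wreath product are isomorphic. -/
theorem nonempty_iso [Nonempty Ω] :
    Nonempty (Grp (Sys.split A) (addPt F) ≃ₜ* Grp A (wreath F)) := by
  classical
  let e : Grp (Sys.split A) (addPt F) ≃* Grp A (wreath F) :=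
    { Equiv.ofBijective _ (down_bijective (A := A) (F := F)) with
      map_mul' := by
        intro g h
        apply Subtype.ext
        apply Equiv.ext
        intro x
        show (g.1 (h.1 (x, false))).1 = (g.1 ((h.1 (x, false)).1, false)).1
        rw [← split_fst g.2 _ (h.1 (x, false)).2] }
  have he : ∀ g x, (e g).1 x = (g.1 (x, false)).1 := fun g x => rfl
  refine ⟨{ e with
    continuous_toFun := ?_
    continuous_invFun := ?_ }⟩
  · show Continuous e
    rw [continuous_induced_rng, continuous_perm_iff]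
    intro x y
    have : {g | ((Subtype.val ∘ e) g) x = y} =
        ⋃ s : Bool, (Subtype.val ⁻¹' {g : Equiv.Perm (V × Bool) | g (x, false) = (y, s)}) := by
      ext g
      simp only [Set.mem_ofPred_eq, Set.mem_iUnion, Set.mem_preimage, Function.comp_apply]
      rw [he]
      constructor
      · intro h
        exact ⟨(g.1 (x, false)).2, by rw [← h]⟩
      · rintro ⟨s, hs⟩
        rw [hs]
    rw [this]
    exact isOpen_iUnion fun s => (isOpen_eval _ _).preimage continuous_subtype_val
  · show Continuous e.symm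
    rw [continuous_induced_rng, continuous_perm_iff]
    rintro ⟨x, s⟩ q
    obtain ⟨i₀⟩ := ‹Nonempty Ω›
    rw [isOpen_iff_mem_nhds]
    intro h hh
    have h1 : IsOpen (Subtype.val ⁻¹' ({k : Equiv.Perm V | k x = h.1 x} ∩
        {k : Equiv.Perm V | k (A.κ (i₀, s) x) = h.1 (A.κ (i₀, s) x)}) : Set (Grp A (wreath F))) :=
      ((isOpen_eval _ _).inter (isOpen_eval _ _)).preimage continuous_subtype_val
    refine Filter.mem_of_superset (h1.mem_nhds ⟨rfl, rfl⟩) ?_
    rintro k ⟨hk1, hk2⟩
    have h2 : (e.symm k).1 (x, s) = (e.symm h).1 (x, s) := by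
      apply split_det (e.symm k).2 (e.symm h).2 i₀
      · rw [← he, ← he, e.apply_symm_apply, e.apply_symm_apply]
        exact hk1
      · rw [← he, ← he, e.apply_symm_apply, e.apply_symm_apply]
        exact hk2
    show (e.symm k).1 (x, s) = q
    rw [h2]
    exact hh

end iso

/-- transport along an isomorphism of systems -/
theorem nonempty_iso_of_equiv {W : Type w} {A : Sys V Ω} {B : Sys W Ω} (e : V ≃ W)
    (he : ∀ i z, e (A.κ i z) = B.κ i (e z)) (F : Subgroup (Equiv.Perm Ω)) :
    Nonempty (Grp A F ≃ₜ* Grp B F) := by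
  have he' : ∀ i z, e.symm (B.κ i z) = A.κ i (e.symm z) := by
    intro i z
    rw [Equiv.symm_apply_eq, he, Equiv.apply_symm_apply]
  let f : Grp A F ≃* Grp B F :=
    { toFun := fun g => ⟨e.permCongr g.1, by
        intro x
        obtain ⟨p, hp, h⟩ := g.2 (e.symm x)
        refine ⟨p, hp, fun i => ?_⟩
        simp only [Equiv.permCongr_apply]
        rw [he', h, he]⟩
      invFun := fun g => ⟨e.symm.permCongr g.1, by
        intro x
        obtain ⟨p, hp, h⟩ := g.2 (e x)
        refine ⟨p, hp, fun i => ?_⟩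
        simp only [Equiv.permCongr_apply, Equiv.symm_symm]
        rw [he, h, he']⟩
      left_inv := fun g => by
        apply Subtype.ext
        apply Equiv.ext
        intro x
        simp
      right_inv := fun g => by
        apply Subtype.ext
        apply Equiv.ext
        intro x
        simp
      map_mul' := fun g h => by
        apply Subtype.ext
        apply Equiv.ext
        intro x
        simp }
  refine ⟨{ f with
    continuous_toFun := ?_
    continuous_invFun := ?_ }⟩
  · show Continuous f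
    rw [continuous_induced_rng, continuous_perm_iff]
    intro x y
    have : {g | ((Subtype.val ∘ f) g) x = y} =
        Subtype.val ⁻¹' {g : Equiv.Perm V | g (e.symm x) = e.symm y} := by
      ext g
      show e (g.1 (e.symm x)) = y ↔ g.1 (e.symm x) = e.symm y
      rw [Equiv.eq_symm_apply]
    rw [this]
    exact (isOpen_eval _ _).preimage continuous_subtype_val
  · show Continuous f.symm
    rw [continuous_induced_rng, continuous_perm_iff]
    intro x y
    have : {g | ((Subtype.val ∘ f.symm) g) x = y} =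
        Subtype.val ⁻¹' {g : Equiv.Perm W | g (e x) = e y} := by
      ext g
      show e.symm (g.1 (e x)) = y ↔ g.1 (e x) = e y
      rw [Equiv.symm_apply_eq]
    rw [this]
    exact (isOpen_eval _ _).preimage continuous_subtype_val

end Pool.Agent.W657.BM
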