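import Mathlib

/-!
# Systems of involutions and coloured trees
-/

set_option autoImplicit false

namespace Pool.Agent.W657.BM

universe u v w

/-- a system of fixed point free involutions `κ i` of `V`, pairwise different at each point -/
structure Sys (V : Type u) (Ω : Type v) where
  κ : Ω → V → V
  inv : ∀ i x, κ i (κ i x) = x
  inj : ∀ i j x, κ i x = κ j x → i = j

namespace Sys

variable {V : Type u} {Ω : Type v} {W : Type w}

/-- follow a word -/
def act (A : Sys V Ω) : List Ω → V → V
  | [], x => x
  | i :: l, x => A.act l (A.κ i x)

@[simp] theorem act_nil (A : Sys V Ω) (x : V) : A.act [] x = x := rfl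

@[simp] theorem act_cons (A : Sys V Ω) (i : Ω) (l : List Ω) (x : V) :
    A.act (i :: l) x = A.act l (A.κ i x) := rfl

theorem act_append (A : Sys V Ω) (l m : List Ω) (x : V) :
    A.act (l ++ m) x = A.act m (A.act l x) := by
  induction l generalizing x with
  | nil => rfl
  | cons i l ih => simp [ih]

theorem act_reverse (A : Sys V Ω) (l : List Ω) (x : V) : A.act l.reverse (A.act l x) = x := by
  induction l generalizing x with
  | nil => rfl
  | cons i l ih =>
    rw [List.reverse_cons, act_append, act_cons, act_nil, act_cons, ih, A.inv]

theorem act_reverse' (A : Sys V Ω) (l : List Ω) (x : V) : A.act l (A.act l.reverse x) = x := by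
  have := A.act_reverse l.reverse x
  rwa [List.reverse_reverse] at this

/-- reduced words -/
abbrev Red (l : List Ω) : Prop := l.IsChain (· ≠ ·)

/-- every word can be reduced -/
theorem exists_red (l : List Ω) : ∃ m : List Ω, Red m ∧ m.length ≤ l.length ∧
    ∀ {V : Type u} (A : Sys V Ω) (x : V), A.act l x = A.act m x := by
  classical
  induction l with
  | nil => exact ⟨[], List.isChain_nil, le_rfl, fun _ _ => rfl⟩
  | cons i l ih =>
    obtain ⟨m, hm, hl, h⟩ := ih
    cases m with
    | nil =>
      refine ⟨[i], List.isChain_singleton _, by simp, fun A x => ?_⟩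
      rw [act_cons, h]
      rfl
    | cons j m =>
      by_cases hij : i = j
      · subst hij
        refine ⟨m, (List.isChain_cons.1 hm).2, by simp at hl ⊢; omega, fun A x => ?_⟩
        rw [act_cons, h, act_cons, A.inv]
      · refine ⟨i :: j :: m, List.isChain_cons_cons.2 ⟨hij, hm⟩, by simpa using hl, fun A x => ?_⟩
        rw [act_cons, h]
        rfl

/-- the system is a tree: reduced words act freely and the action is transitive -/
structure IsTree (A : Sys V Ω) : Prop where
  free : ∀ (l : List Ω) (x : V), Red l → A.act l x = x → l = []
  trans : ∀ x y : V, ∃ l : List Ω, A.act l x = y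

theorem IsTree.exists_red {A : Sys V Ω} (hA : A.IsTree) (x y : V) :
    ∃ l : List Ω, Red l ∧ A.act l x = y := by
  obtain ⟨l, hl⟩ := hA.trans x y
  obtain ⟨m, hm, -, h⟩ := Sys.exists_red.{u} l
  exact ⟨m, hm, (h A x).symm.trans hl⟩

/-- a word acting trivially at one point of a tree acts trivially everywhere -/
theorem IsTree.act_eq {A : Sys V Ω} (hA : A.IsTree) {l : List Ω} {x : V} (h : A.act l x = x)
    {W : Type u} (B : Sys W Ω) (y : W) : B.act l y = y := by
  obtain ⟨m, hm, -, h2⟩ := Sys.exists_red.{u} l
  rw [h2] at h
  have := hA.free m x hm h
  rw [h2, this]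
  rfl

theorem IsTree.act_eq_act {A : Sys V Ω} (hA : A.IsTree) {l m : List Ω} {x : V}
    (h : A.act l x = A.act m x) {W : Type u} (B : Sys W Ω) (y : W) : B.act l y = B.act m y := by
  have h1 : A.act (l ++ m.reverse) x = x := by rw [act_append, h, act_reverse]
  have h2 := hA.act_eq h1 B y
  rw [act_append] at h2
  have h3 := congrArg (B.act m) h2
  rwa [act_reverse'] at h3

theorem red_snoc {l : List Ω} {i : Ω} (h : Red (l ++ [i])) : Red l :=
  (List.isChain_append.1 h).1

/-- uniqueness of reduced words -/
theorem IsTree.unique {A : Sys V Ω} (hA : A.IsTree) {l m : List Ω} {x : V} (hl : Red l)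
    (hm : Red m) (h : A.act l x = A.act m x) : l = m := by
  classical
  induction l generalizing m x with
  | nil => exact (hA.free m x hm h.symm).symm
  | cons i l ih =>
    cases m with
    | nil => exact hA.free _ x hl h
    | cons j m =>
      by_cases hij : i = j
      · subst hij
        rw [ih (List.isChain_cons.1 hl).2 (List.isChain_cons.1 hm).2 h]
      · exfalso
        have h1 : Red (l.reverse ++ (i :: j :: m)) := by
          have h2 : Red (l.reverse ++ [i]) := by
            rw [← List.reverse_cons]
            unfold Red
            rw [List.isChain_reverse]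
            exact hl.imp fun a b hab => hab.symm
          unfold Red at h2 ⊢
          rw [List.isChain_append] at h2 ⊢
          refine ⟨h2.1, List.isChain_cons_cons.2 ⟨hij, hm⟩, ?_⟩
          intro a ha b hb
          exact h2.2.2 a ha b hb
        have h3 : A.act (l.reverse ++ (i :: j :: m)) (A.act l (A.κ i x)) = A.act l (A.κ i x) := by
          rw [act_append, act_reverse, act_cons, A.inv]
          exact h.symm
        have := hA.free _ _ h1 h3
        simp at this

/-- two trees with the same set of colours are isomorphic -/
theorem IsTree.exists_equiv {A : Sys V Ω} (hA : A.IsTree) {W : Type u} {B : Sys W Ω}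
    (hB : B.IsTree) (x : V) (y : W) : ∃ e : V ≃ W, e x = y ∧ ∀ i z, e (A.κ i z) = B.κ i (e z) := by
  choose l hl using hA.trans x
  choose m hm using hB.trans y
  have h1 : ∀ (k : List Ω), B.act (l (A.act k x)) y = B.act k y := by
    intro k
    apply hA.act_eq_act (x := x)
    rw [hl]
  have h2 : ∀ (k : List Ω), A.act (m (B.act k y)) x = A.act k x := by
    intro k
    apply hB.act_eq_act (x := y)
    rw [hm]
  refine ⟨⟨fun z => B.act (l z) y, fun z => A.act (m z) x, ?_, ?_⟩, ?_, ?_⟩
  · intro z
    show A.act (m (B.act (l z) y)) x = z
    rw [h2, hl]
  · intro z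
    show B.act (l (A.act (m z) x)) y = z
    rw [h1, hm]
  · exact h1 []
  · intro i z
    show B.act (l (A.κ i z)) y = B.κ i (B.act (l z) y)
    have h3 : A.κ i z = A.act (l z ++ [i]) x := by rw [act_append, hl]; rfl
    rw [h3, h1, act_append]
    rfl

/-! ### Splitting the vertices -/

/-- replace every vertex `x` by two vertices `(x, false)`, `(x, true)`, joined by a new edge -/
def split {V : Type u} {Ω : Type v} (A : Sys V (Ω × Bool)) : Sys (V × Bool) (Option Ω) where
  κ i p := match i with
    | none => (p.1, !p.2)
    | some i => (A.κ (i, p.2) p.1, p.2)
  inv i p := by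
    cases i with
    | none => simp
    | some i => simp [A.inv]
  inj i j p h := by
    cases i with
    | none =>
      cases j with
      | none => rfl
      | some j => simp at h
    | some i =>
      cases j with
      | none => simp at h
      | some j =>
        have h1 := A.inj _ _ _ (Prod.ext_iff.1 h).1
        have h2 : i = j := (Prod.ext_iff.1 h1).1
        rw [h2]

theorem split_none (A : Sys V (Ω × Bool)) (p : V × Bool) :
    (split A).κ none p = (p.1, !p.2) := rfl

theorem split_some (A : Sys V (Ω × Bool)) (i : Ω) (p : V × Bool) :
    (split A).κ (some i) p = (A.κ (i, p.2) p.1, p.2) := rfl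

/-- projection of words -/
def proj : List (Option Ω) → Bool → List (Ω × Bool)
  | [], _ => []
  | none :: l, s => proj l (!s)
  | some i :: l, s => (i, s) :: proj l s

theorem act_split (A : Sys V (Ω × Bool)) (l : List (Option Ω)) (x : V) (s : Bool) :
    ((split A).act l (x, s)).1 = A.act (proj l s) x := by
  induction l generalizing x s with
  | nil => rfl
  | cons i l ih =>
    cases i with
    | none => exact ih x (!s)
    | some i => exact ih (A.κ (i, s) x) s

theorem head_proj (l : List (Option Ω)) (hl : Red l) (s : Bool) :
    (∀ i, l.head? = some (some i) → (proj l s).head? = some (i, s)) ∧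
    (l.head? = some none → ∀ p, (proj l s).head? = some p → p.2 = !s) := by
  cases l with
  | nil => simp [proj]
  | cons i l =>
    cases i with
    | none =>
      refine ⟨by simp, fun _ p hp => ?_⟩
      cases l with
      | nil => simp [proj] at hp
      | cons j l =>
        cases j with
        | none => exact absurd rfl ((List.isChain_cons_cons.1 hl).1)
        | some j =>
          simp only [proj, List.head?_cons, Option.some.injEq] at hp
          rw [← hp]
    | some i =>
      refine ⟨fun j hj => ?_, by simp⟩
      simp only [List.head?_cons, Option.some.injEq] at hj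
      rw [hj]
      rfl

theorem red_proj (l : List (Option Ω)) (hl : Red l) (s : Bool) : Red (proj l s) := by
  induction l generalizing s with
  | nil => exact List.isChain_nil
  | cons i l ih =>
    have hl' : Red l := (List.isChain_cons.1 hl).2
    cases i with
    | none => exact ih hl' _
    | some i =>
      show List.IsChain (· ≠ ·) ((i, s) :: proj l s)
      rw [List.isChain_cons]
      refine ⟨?_, ih hl' s⟩
      intro p hp
      have hh := head_proj l hl' s
      cases l with
      | nil => simp [proj] at hp
      | cons j l =>
        cases j with
        | none =>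
          have h3 := hh.2 rfl p hp
          intro h4
          rw [← h4] at h3
          simp at h3
        | some j =>
          have h3 := hh.1 j rfl
          have hp' : (proj (some j :: l) s).head? = some p := hp
          rw [h3] at hp'
          have h4 : (j, s) = p := by simpa using hp'
          rw [← h4]
          intro h5
          have h6 := (List.isChain_cons_cons.1 hl).1
          have h7 : i = j := (Prod.ext_iff.1 h5).1
          exact h6 (congrArg some h7)

theorem proj_ne_nil {l : List (Option Ω)} {s : Bool} (hl : Red l) (h : proj l s = []) :
    l = [] ∨ l = [none] := by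
  cases l with
  | nil => exact Or.inl rfl
  | cons i l =>
    cases i with
    | some i => simp [proj] at h
    | none =>
      cases l with
      | nil => exact Or.inr rfl
      | cons j l =>
        cases j with
        | none => exact absurd rfl ((List.isChain_cons_cons.1 hl).1)
        | some j => simp [proj] at h

theorem IsTree.split {A : Sys V (Ω × Bool)} (hA : A.IsTree) : (split A).IsTree where
  free l p hl h := by
    obtain ⟨x, s⟩ := p
    have h1 := congrArg Prod.fst h
    rw [act_split] at h1
    have h2 := hA.free _ _ (red_proj l hl s) h1
    rcases proj_ne_nil hl h2 with h3 | h3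
    · exact h3
    · exfalso
      rw [h3] at h
      have := congrArg Prod.snd h
      simp [split_none] at this
  trans p q := by
    obtain ⟨x, s⟩ := p
    obtain ⟨y, t⟩ := q
    obtain ⟨l, hl⟩ := hA.trans x y
    -- change sides
    have side : ∀ (z : V) (a b : Bool), ∃ m : List (Option Ω), (Sys.split A).act m (z, a) = (z, b) := by
      intro z a b
      by_cases hab : a = b
      · exact ⟨[], by rw [hab]; rfl⟩
      · refine ⟨[none], ?_⟩
        rw [act_cons, split_none, act_nil]
        simp only [Prod.mk.injEq, true_and]
        cases a <;> cases b <;> simp_all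
    induction l generalizing x s with
    | nil =>
      have : x = y := hl
      rw [← this]
      exact side x s t
    | cons i l ih =>
      obtain ⟨i, a⟩ := i
      obtain ⟨m, hm⟩ := side x s a
      obtain ⟨n, hn⟩ := ih (A.κ (i, a) x) a hl
      refine ⟨m ++ (some i :: n), ?_⟩
      rw [act_append, hm, act_cons, split_some]
      exact hn

end Sys

end Pool.Agent.W657.BM
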