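import Pool.Agent.W657.BM.Grp

/-!
# Local compactness and non-discreteness
-/

set_option autoImplicit false

open Topology

namespace Pool.Agent.W657.BM

universe u v w

variable {V : Type u} {Ω : Type v}

section compact

variable {A : Sys V Ω}

/-- images of words under an element of the group -/
theorem Grp.exists_word {F : Subgroup (Equiv.Perm Ω)} {g : Equiv.Perm V} (hg : g ∈ Grp A F)
    (l : List Ω) (x : V) : ∃ m : List Ω, m.length = l.length ∧ g (A.act l x) = A.act m (g x) := by
  induction l generalizing x with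
  | nil => exact ⟨[], rfl, rfl⟩
  | cons i l ih =>
    obtain ⟨p, -, hp⟩ := hg x
    obtain ⟨m, hm, h⟩ := ih (A.κ i x)
    refine ⟨p i :: m, by simp [hm], ?_⟩
    rw [Sys.act_cons, h, hp]
    rfl

/-- the vertices at the end of words of length `n` -/
def sphere (A : Sys V Ω) (x : V) (n : ℕ) : Set V := {y | ∃ m : List Ω, m.length = n ∧ A.act m x = y}

theorem finite_sphere [Finite Ω] (A : Sys V Ω) (x : V) (n : ℕ) : (sphere A x n).Finite := by
  have : sphere A x n = (fun m : List Ω => A.act m x) '' {m : List Ω | m.length = n} := by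
    ext y
    constructor
    · rintro ⟨m, hm, h⟩
      exact ⟨m, hm, h⟩
    · rintro ⟨m, hm, h⟩
      exact ⟨m, hm, h⟩
  rw [this]
  exact (List.finite_length_eq Ω n).image _

theorem isCompact_stab [Finite Ω] (hA : ∀ x y : V, ∃ l : List Ω, A.act l x = y)
    (F : Subgroup (Equiv.Perm Ω)) (x₀ : V) : IsCompact {g : Grp A F | g.1 x₀ = x₀} := by
  let _ : TopologicalSpace V := ⊥
  have _ : DiscreteTopology V := ⟨rfl⟩
  let ι : Grp A F → (V → V) := fun g => g.1
  have hι : IsInducing ι := by
    have h1 : IsInducing (fun g : Equiv.Perm V => (g : V → V)) := ⟨rfl⟩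
    exact h1.comp IsInducing.subtypeVal
  rw [hι.isCompact_iff]
  choose l hl using hA x₀
  have h1 : IsCompact (Set.univ.pi fun x => sphere A x₀ (l x).length) :=
    isCompact_univ_pi fun x => (finite_sphere A x₀ _).isCompact
  refine h1.of_isClosed_subset ?_ ?_
  · have h2 : ι '' {g : Grp A F | g.1 x₀ = x₀} = {f : V → V | f x₀ = x₀} ∩
        ⋂ x : V, ({f : V → V | ∃ p ∈ F, ∀ i, f (A.κ i x) = A.κ (p i) (f x)} ∩
          ⋂ y : V, {f : V → V | f x = f y → x = y}) := by
      ext f
      constructor
      · rintro ⟨g, hg, rfl⟩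
        refine ⟨hg, Set.mem_iInter.2 fun x => ⟨g.2 x, Set.mem_iInter.2 fun y => ?_⟩⟩
        intro h
        exact g.1.injective h
      · rintro ⟨h3, h4⟩
        rw [Set.mem_iInter] at h4
        have hinj : Function.Injective f := by
          intro x y hxy
          exact (Set.mem_iInter.1 (h4 x).2 y) hxy
        have hsurj : Function.Surjective f := by
          intro y
          obtain ⟨m, hm⟩ := hA x₀ y
          have : ∀ (m : List Ω) (z : V), ∃ w, f w = A.act m (f z) := by
            intro m
            induction m with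
            | nil => exact fun z => ⟨z, rfl⟩
            | cons i m ih =>
              intro z
              obtain ⟨p, -, hp⟩ := (h4 z).1
              obtain ⟨w, hw⟩ := ih (A.κ (p⁻¹ i) z)
              refine ⟨w, ?_⟩
              rw [hw, hp]
              simp
          obtain ⟨w, hw⟩ := this m x₀
          refine ⟨w, ?_⟩
          rw [hw, ← hm]
          congr 1
        refine ⟨⟨Equiv.ofBijective f ⟨hinj, hsurj⟩, fun x => (h4 x).1⟩, h3, rfl⟩
    rw [h2]
    refine IsClosed.inter ?_ (isClosed_iInter fun x => IsClosed.inter ?_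
      (isClosed_iInter fun y => ?_))
    · have h3 : Continuous fun f : V → V => f x₀ := continuous_apply (A := fun _ => V) x₀
      exact (isClosed_discrete ({x₀} : Set V)).preimage h3
    · have h3 : Continuous fun f : V → V => ((f x, fun i : Ω => f (A.κ i x)) : V × (Ω → V)) := by
        refine Continuous.prodMk (continuous_apply (A := fun _ => V) x) ?_
        exact continuous_pi fun i => continuous_apply (A := fun _ => V) (A.κ i x)
      exact (isClosed_discrete {q : V × (Ω → V) | ∃ p ∈ F, ∀ i, q.2 i = A.κ (p i) q.1}).preimage h3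
    · have h3 : Continuous fun f : V → V => ((f x, f y) : V × V) :=
        Continuous.prodMk (continuous_apply (A := fun _ => V) x)
          (continuous_apply (A := fun _ => V) y)
      exact (isClosed_discrete {q : V × V | q.1 = q.2 → x = y}).preimage h3
  · rintro _ ⟨g, hg, rfl⟩ x -
    obtain ⟨m, hm, h⟩ := Grp.exists_word g.2 (l x) x₀
    refine ⟨m, hm, ?_⟩
    rw [hl, hg] at h
    exact h.symm

theorem locallyCompact_Grp [Finite Ω] (hA : ∀ x y : V, ∃ l : List Ω, A.act l x = y)
    (F : Subgroup (Equiv.Perm Ω)) : LocallyCompactSpace (Grp A F) := by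
  rcases isEmpty_or_nonempty V with h | ⟨⟨x₀⟩⟩
  · have : Subsingleton (Grp A F) := ⟨fun a b => Subtype.ext (Equiv.ext fun x => (h.false x).elim)⟩
    have : CompactSpace (Grp A F) := Finite.compactSpace
    exact ⟨fun x n hn => ⟨Set.univ, Filter.univ_mem, by
      intro y _
      rw [Subsingleton.elim y x]
      exact mem_of_mem_nhds hn, isCompact_univ⟩⟩
  · have h1 : IsOpen {g : Grp A F | g.1 x₀ = x₀} :=
      (isOpen_eval x₀ x₀).preimage continuous_subtype_val
    exact (isCompact_stab hA F x₀).locallyCompactSpace_of_mem_nhds_of_group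
      (h1.mem_nhds (show (1 : Grp A F).1 x₀ = x₀ from rfl))

end compact

/-! ### Non-discreteness -/

section nondiscrete

variable {A : Sys V (Option Ω)}

/-- words starting with a non-trivial colour -/
def Good (l : List (Option Ω)) : Prop := ∃ i m, l = some i :: m

/-- the part of the tree beyond `x` on the side of the colours `some i` -/
def side (A : Sys V (Option Ω)) (x : V) : Set V :=
  {y | ∃ l : List (Option Ω), Sys.Red l ∧ Good l ∧ A.act l x = y}

theorem side_step {x y : V} (hy : y ∈ side A x) (c : Option Ω) :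
    A.κ c y ∈ side A x ∨ A.κ c y = x := by
  classical
  obtain ⟨l, hl, ⟨i, m, rfl⟩, rfl⟩ := hy
  rcases List.eq_nil_or_concat (some i :: m) with h | ⟨k, d, h⟩
  · simp at h
  rw [List.concat_eq_append] at h
  by_cases hd : d = c
  · subst hd
    have h1 : A.κ d (A.act (some i :: m) x) = A.act k x := by
      rw [h, Sys.act_append]
      exact A.inv d _
    rw [h1]
    cases k with
    | nil => exact Or.inr rfl
    | cons a k =>
      left
      rw [h] at hl
      have h2 : some i = a := by
        have := congrArg List.head? h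
        simpa using this
      refine ⟨a :: k, (List.isChain_append.1 hl).1, ⟨i, k, by rw [h2]⟩, rfl⟩
  · left
    refine ⟨(some i :: m) ++ [c], ?_, ⟨i, m ++ [c], rfl⟩, ?_⟩
    · rw [h] at hl ⊢
      unfold Sys.Red
      rw [List.isChain_append]
      refine ⟨hl, List.isChain_singleton _, ?_⟩
      intro a ha b hb
      simp only [List.getLast?_append, List.getLast?_singleton, Option.some_or,
        Option.mem_def, Option.some.injEq] at ha
      simp only [List.head?_cons, Option.mem_def, Option.some.injEq] at hb
      rw [← ha, ← hb]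
      exact hd
    · rw [Sys.act_append]
      rfl

theorem notMem_side_self (hA : A.IsTree) (x : V) : x ∉ side A x := by
  rintro ⟨l, hl, ⟨i, m, rfl⟩, h⟩
  have := hA.free _ _ hl h
  simp at this

theorem none_notMem_side (hA : A.IsTree) (x : V) : A.κ none x ∉ side A x := by
  rintro ⟨l, hl, ⟨i, m, rfl⟩, h⟩
  have h1 : A.act (some i :: m) x = A.act [none] x := h
  have := hA.unique hl (List.isChain_singleton _) h1
  simp at this

theorem some_mem_side (i : Ω) (x : V) : A.κ (some i) x ∈ side A x :=
  ⟨[some i], List.isChain_singleton _, ⟨i, [], rfl⟩, rfl⟩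

/-- change of colours -/
def recolor (A : Sys V (Option Ω)) (p : Equiv.Perm Ω) : Sys V (Option Ω) where
  κ c x := A.κ (p.optionCongr c) x
  inv _ x := A.inv _ x
  inj _ _ _ h := p.optionCongr.injective (A.inj _ _ _ h)

theorem act_recolor (p : Equiv.Perm Ω) (l : List (Option Ω)) (x : V) :
    (recolor A p).act l x = A.act (l.map p.optionCongr) x := by
  induction l generalizing x with
  | nil => rfl
  | cons c l ih => exact ih _

theorem isTree_recolor (hA : A.IsTree) (p : Equiv.Perm Ω) : (recolor A p).IsTree where
  free l x hl h := by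
    rw [act_recolor] at h
    have h1 : Sys.Red (l.map p.optionCongr) := by
      unfold Sys.Red
      rw [List.isChain_map]
      exact hl.imp fun a b hab => p.optionCongr.injective.ne hab
    have := hA.free _ _ h1 h
    simpa using this
  trans x y := by
    obtain ⟨l, hl⟩ := hA.trans x y
    refine ⟨l.map p.optionCongr.symm, ?_⟩
    rw [act_recolor, List.map_map]
    simpa using hl

/-- the twist at `x`: there is an element of the group with local action `p` on one side of `x`,
and trivial on the other side -/
theorem exists_twist (hA : A.IsTree) {F : Subgroup (Equiv.Perm Ω)} {p : Equiv.Perm Ω} (hp : p ∈ F)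
    (x : V) : ∃ g : Grp A (addPt F), (∀ i, g.1 (A.κ (some i) x) = A.κ (some (p i)) x) ∧
      ∀ y ∉ side A x, g.1 y = y := by
  classical
  obtain ⟨e, hex, he⟩ := hA.exists_equiv (isTree_recolor hA p) x x
  have he' : ∀ l, e (A.act l x) = A.act (l.map p.optionCongr) x := by
    intro l
    have : ∀ (l : List (Option Ω)) (z : V), e (A.act l z) = (recolor A p).act l (e z) := by
      intro l
      induction l with
      | nil => exact fun z => rfl
      | cons c l ih =>
        intro z
        rw [Sys.act_cons, ih, he]
        rfl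
    rw [this, hex, act_recolor]
  have hes : ∀ y, y ∈ side A x → e y ∈ side A x := by
    rintro y ⟨l, hl, ⟨i, m, rfl⟩, rfl⟩
    rw [he']
    refine ⟨(some i :: m).map p.optionCongr, ?_, ⟨p i, m.map p.optionCongr, rfl⟩, rfl⟩
    unfold Sys.Red
    rw [List.isChain_map]
    exact hl.imp fun a b hab => p.optionCongr.injective.ne hab
  have hes' : ∀ y, e y ∈ side A x → y ∈ side A x := by
    rintro y ⟨l, hl, ⟨i, m, rfl⟩, h⟩
    have h1 : y = A.act ((some i :: m).map p.optionCongr.symm) x := by
      apply e.injective
      rw [← h, he', List.map_map]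
      simp
    rw [h1]
    refine ⟨(some i :: m).map p.optionCongr.symm, ?_, ⟨p.symm i, m.map p.optionCongr.symm, rfl⟩, rfl⟩
    unfold Sys.Red
    rw [List.isChain_map]
    exact hl.imp fun a b hab => p.optionCongr.symm.injective.ne hab
  let f : Equiv.Perm V :=
    { toFun := fun y => if y ∈ side A x then e y else y
      invFun := fun y => if y ∈ side A x then e.symm y else y
      left_inv := by
        intro y
        by_cases hy : y ∈ side A x
        · simp [hy, hes y hy]
        · simp [hy]
      right_inv := by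
        intro y
        by_cases hy : y ∈ side A x
        · have : e.symm y ∈ side A x := hes' _ (by simpa using hy)
          simp [hy, this]
        · simp [hy] }
  have hf1 : ∀ y ∈ side A x, f y = e y := fun y hy => if_pos hy
  have hf2 : ∀ y ∉ side A x, f y = y := fun y hy => if_neg hy
  have hfx : f x = x := hf2 x (notMem_side_self hA x)
  have hf3 : ∀ y, (y ∈ side A x ∨ y = x) → f y = e y := by
    rintro y (hy | rfl)
    · exact hf1 y hy
    · rw [hfx, hex]
  have hf : f ∈ Grp A (addPt F) := by
    intro y
    by_cases hy : y ∈ side A x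
    · refine ⟨p.optionCongr, ⟨rfl, p, hp, fun i => rfl⟩, fun c => ?_⟩
      rw [hf3 _ (side_step hy c), hf1 y hy, he]
      rfl
    · by_cases hyx : y = x
      · subst hyx
        refine ⟨p.optionCongr, ⟨rfl, p, hp, fun i => rfl⟩, fun c => ?_⟩
        cases c with
        | none =>
          rw [hf2 _ (none_notMem_side hA y), hfx]
          rfl
        | some i =>
          rw [hf1 _ (some_mem_side i y), he, hex, hfx]
          rfl
      · refine ⟨1, ⟨rfl, 1, F.one_mem, fun i => rfl⟩, fun c => ?_⟩
        have h1 : A.κ c y ∉ side A x := by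
          intro h
          have h2 := side_step h c
          rw [A.inv] at h2
          rcases h2 with h2 | h2
          · exact hy h2
          · exact hyx h2
        rw [hf2 _ h1, hf2 y hy]
        rfl
  refine ⟨⟨f, hf⟩, fun i => ?_, hf2⟩
  show f _ = _
  rw [hf1 _ (some_mem_side i x), he, hex]
  rfl

/-- vertices far away -/
theorem exists_far (hA : A.IsTree) (i₀ : Ω) (x₀ : V) (S : Finset V) :
    ∃ x : V, ∀ y ∈ S, y ∉ side A x := by
  classical
  choose l hl1 hl2 using hA.exists_red x₀
  -- the sequence of vertices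
  have key : ∀ k : ℕ, ∃ x : V, ∀ m : List (Option Ω), Sys.Red m → Good m →
      ∃ n : List (Option Ω), Sys.Red n ∧ Good n ∧ A.act n x₀ = A.act m x ∧
        n.length = m.length + 2 * k := by
    intro k
    induction k with
    | zero => exact ⟨x₀, fun m h1 h2 => ⟨m, h1, h2, rfl, by simp⟩⟩
    | succ k ih =>
      obtain ⟨x, hx⟩ := ih
      refine ⟨A.κ none (A.κ (some i₀) x), fun m h1 h2 => ?_⟩
      obtain ⟨i, m', rfl⟩ := h2
      obtain ⟨n, hn1, hn2, hn3, hn4⟩ := hx (some i₀ :: none :: some i :: m')
        (List.isChain_cons_cons.2 ⟨by simp, List.isChain_cons_cons.2 ⟨by simp, h1⟩⟩)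
        ⟨i₀, _, rfl⟩
      refine ⟨n, hn1, hn2, hn3, ?_⟩
      rw [hn4]
      simp only [List.length_cons]
      ring
  obtain ⟨x, hx⟩ := key (S.sup (fun y => (l y).length) + 1)
  refine ⟨x, ?_⟩
  rintro y hy ⟨m, hm1, hm2, hm3⟩
  obtain ⟨n, hn1, hn2, hn3, hn4⟩ := hx m hm1 hm2
  have h1 : n = l y := hA.unique hn1 (hl1 y) (by rw [hn3, hm3, hl2])
  have h2 : (l y).length ≤ S.sup (fun y => (l y).length) :=
    Finset.le_sup (f := fun y => (l y).length) hy
  rw [h1] at hn4
  omega

theorem not_discrete (hA : A.IsTree) {F : Subgroup (Equiv.Perm Ω)} (hF : F ≠ ⊥) (x₀ : V) :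
    ¬ DiscreteTopology (Grp A (addPt F)) := by
  classical
  intro hd
  obtain ⟨p, hp, hp1⟩ := F.bot_or_exists_ne_one.resolve_left hF
  obtain ⟨i, hi⟩ : ∃ i, p i ≠ i := by
    by_contra h
    push Not at h
    exact hp1 (Equiv.ext h)
  let _ : TopologicalSpace V := ⊥
  let ι : Grp A (addPt F) → (V → V) := fun g => g.1
  have hι : IsInducing ι := by
    have h1 : IsInducing (fun g : Equiv.Perm V => (g : V → V)) := ⟨rfl⟩
    exact h1.comp IsInducing.subtypeVal
  have h1 : IsOpen ({1} : Set (Grp A (addPt F))) := isOpen_discrete _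
  obtain ⟨U, hU, hU1⟩ := hι.isOpen_iff.1 h1
  have h2 : ι 1 ∈ U := by
    have : (1 : Grp A (addPt F)) ∈ ι ⁻¹' U := by
      rw [hU1]
      rfl
    exact this
  obtain ⟨S, t, ht, hS⟩ := isOpen_pi_iff.1 hU _ h2
  obtain ⟨x, hx⟩ := exists_far hA i x₀ S
  obtain ⟨g, hg1, hg2⟩ := exists_twist hA hp x
  have h3 : ι g ∈ U := by
    apply hS
    intro y hy
    have : ι g y = y := hg2 y (hx y hy)
    rw [this]
    exact (ht y hy).2
  have h4 : g = 1 := by
    have : g ∈ ι ⁻¹' U := h3
    rw [hU1] at this
    exact this
  have h5 := hg1 i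
  rw [h4] at h5
  have h6 : A.κ (some i) x = A.κ (some (p i)) x := h5
  have h7 := A.inj _ _ _ h6
  simp only [Option.some.injEq] at h7
  exact hi h7.symm

end nondiscrete

end Pool.Agent.W657.BM
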