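import Pool.Agent.W657.BM.Top

/-!
# Regular trees with legal colourings and the Burger-Mozes groups
-/

set_option autoImplicit false

open Topology SimpleGraph

namespace Pool.Agent.W657.BM

universe u v w

/-- A tree with vertex set `V` and a legal colouring of its edges by the set `Ω`: at every vertex,
every colour occurs at exactly one edge. (So the tree is regular of degree `|Ω|`; the values of
`col` outside the set of edges are irrelevant.) -/
structure ColTree (V : Type u) (Ω : Type v) where
  /-- the graph -/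
  graph : SimpleGraph V
  isTree : graph.IsTree
  /-- the colour of an edge -/
  col : Sym2 V → Ω
  legal : ∀ x : V, Set.BijOn col (graph.incidenceSet x) Set.univ

/-- The topology of pointwise convergence on vertices on the automorphism group of a graph. -/
instance autTopology {V : Type u} {T : SimpleGraph V} : TopologicalSpace (T ≃g T) :=
  TopologicalSpace.induced (fun g => (g : V → V)) (@Pi.topologicalSpace V (fun _ => V) fun _ => ⊥)

/-- The Burger-Mozes group `U(F)`: all automorphisms `g` of the tree such that the local action of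
`g` at every vertex `x`, i.e. the permutation of the colours which maps the colour of every edge
`{x, y}` at `x` to the colour of the edge `{g x, g y}`, is in `F`. -/
def U {V : Type u} {Ω : Type v} (t : ColTree V Ω) (F : Subgroup (Equiv.Perm Ω)) :
    Subgroup (t.graph ≃g t.graph) where
  carrier := {g | ∀ x, ∃ p ∈ F, ∀ y, t.graph.Adj x y → t.col s(g x, g y) = p (t.col s(x, y))}
  mul_mem' := by
    intro g h hg hh x
    obtain ⟨p, hp, h1⟩ := hh x
    obtain ⟨q, hq, h2⟩ := hg (h x)
    refine ⟨q * p, F.mul_mem hq hp, fun y hy => ?_⟩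
    show t.col s(g (h x), g (h y)) = q (p (t.col s(x, y)))
    rw [h2 _ (h.map_rel_iff.2 hy), h1 y hy]
  one_mem' := fun x => ⟨1, F.one_mem, fun y _ => rfl⟩
  inv_mem' := by
    intro g hg x
    obtain ⟨p, hp, h1⟩ := hg (g⁻¹ x)
    refine ⟨p⁻¹, F.inv_mem hp, fun y hy => ?_⟩
    have h2 : t.graph.Adj (g⁻¹ x) (g⁻¹ y) := (g⁻¹).map_rel_iff.2 hy
    have h3 := h1 _ h2
    have h4 : ∀ z, g (g⁻¹ z) = z := fun z => g.apply_symm_apply z
    rw [h4, h4] at h3
    rw [Equiv.Perm.eq_inv_iff_eq]
    exact h3.symm

namespace ColTree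

variable {V : Type u} {Ω : Type v} (t : ColTree V Ω)

theorem exists_nb (x : V) (i : Ω) : ∃ y, t.graph.Adj x y ∧ t.col s(x, y) = i := by
  obtain ⟨e, ⟨he, hx⟩, h⟩ := (t.legal x).surjOn (Set.mem_univ i)
  obtain ⟨y, rfl⟩ := hx
  exact ⟨y, he, h⟩

theorem nb_unique {x y z : V} (hy : t.graph.Adj x y) (hz : t.graph.Adj x z)
    (h : t.col s(x, y) = t.col s(x, z)) : y = z := by
  have h1 : s(x, y) ∈ t.graph.incidenceSet x := ⟨hy, Sym2.mem_mk_left x y⟩
  have h2 : s(x, z) ∈ t.graph.incidenceSet x := ⟨hz, Sym2.mem_mk_left x z⟩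
  exact Sym2.congr_right.1 ((t.legal x).injOn h1 h2 h)

/-- the neighbour across the edge with colour `i` -/
noncomputable def nb (i : Ω) (x : V) : V := (t.exists_nb x i).choose

theorem adj_nb (i : Ω) (x : V) : t.graph.Adj x (t.nb i x) := (t.exists_nb x i).choose_spec.1

theorem col_nb (i : Ω) (x : V) : t.col s(x, t.nb i x) = i := (t.exists_nb x i).choose_spec.2

theorem eq_nb {x y : V} (h : t.graph.Adj x y) : y = t.nb (t.col s(x, y)) x :=
  t.nb_unique h (t.adj_nb _ x) (t.col_nb _ x).symm

/-- the system of involutions of a coloured tree -/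
noncomputable def sys : Sys V Ω where
  κ := t.nb
  inv i x := by
    have h := t.eq_nb (t.adj_nb i x).symm
    rw [Sym2.eq_swap, t.col_nb] at h
    exact h.symm
  inj i j x h := by
    rw [← t.col_nb i x, h, t.col_nb]

/-- the walk given by a word -/
noncomputable def walk : (l : List Ω) → (x : V) → t.graph.Walk x (t.sys.act l x)
  | [], x => Walk.nil
  | i :: l, x => Walk.cons (t.adj_nb i x) (walk l (t.nb i x))

theorem edges_walk (l : List Ω) (x : V) : (t.walk l x).edges.map t.col = l := by
  induction l generalizing x with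
  | nil => rfl
  | cons i l ih =>
    show (t.col s(x, t.nb i x)) :: ((t.walk l (t.nb i x)).edges.map t.col) = i :: l
    rw [t.col_nb, ih]

theorem length_walk (l : List Ω) (x : V) : (t.walk l x).length = l.length := by
  rw [← Walk.length_edges, ← List.length_map (f := t.col), t.edges_walk]

theorem isTree_sys : t.sys.IsTree where
  free l x hl h := by
    have h1 : (t.walk l x).IsPath := by
      rw [t.isTree.2.isPath_iff_isChain]
      have h2 : List.IsChain (· ≠ ·) ((t.walk l x).edges.map t.col) := by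
        rw [t.edges_walk]
        exact hl
      rw [List.isChain_map] at h2
      exact h2.imp fun a b hab hab' => hab (congrArg t.col hab')
    have h2 : (t.walk l x).copy rfl h = Walk.nil :=
      Walk.isPath_iff_eq_nil.1 ((Walk.isPath_copy _ rfl h).2 h1)
    have h3 := congrArg Walk.length h2
    rw [Walk.length_copy, t.length_walk] at h3
    exact List.length_eq_zero_iff.1 h3
  trans x y := by
    obtain ⟨p⟩ := t.isTree.1.preconnected x y
    induction p with
    | nil => exact ⟨[], rfl⟩
    | @cons a b c h p ih =>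
      obtain ⟨l, hl⟩ := ih
      refine ⟨t.col s(a, b) :: l, ?_⟩
      show t.sys.act l (t.nb (t.col s(a, b)) a) = c
      rw [← t.eq_nb h, hl]

end ColTree

section group

variable {V : Type u} {Ω : Type v} (t : ColTree V Ω)

/-- automorphisms as permutations -/
def autHom (T : SimpleGraph V) : (T ≃g T) →* Equiv.Perm V where
  toFun g := g.toEquiv
  map_one' := rfl
  map_mul' _ _ := rfl

theorem isInducing_autHom (T : SimpleGraph V) : IsInducing (autHom T) := by
  constructor
  show _ = TopologicalSpace.induced _ (TopologicalSpace.induced _ _)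
  rw [induced_compose]
  rfl

instance {T : SimpleGraph V} : IsTopologicalGroup (T ≃g T) :=
  (isInducing_autHom T).topologicalGroup

theorem mem_U_iff {F : Subgroup (Equiv.Perm Ω)} {g : t.graph ≃g t.graph} :
    g ∈ U t F ↔ autHom t.graph g ∈ Grp t.sys F := by
  constructor
  · intro hg x
    obtain ⟨p, hp, h⟩ := hg x
    refine ⟨p, hp, fun i => ?_⟩
    have h1 := h _ (t.adj_nb i x)
    rw [t.col_nb] at h1
    have h2 := t.eq_nb (g.map_rel_iff.2 (t.adj_nb i x))
    rw [h1] at h2
    exact h2
  · intro hg x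
    obtain ⟨p, hp, h⟩ := hg x
    refine ⟨p, hp, fun y hy => ?_⟩
    have h1 := h (t.col s(x, y))
    have h2 : t.sys.κ (t.col s(x, y)) x = y := (t.eq_nb hy).symm
    rw [h2] at h1
    have h3 : g y = t.nb (p (t.col s(x, y))) (g x) := h1
    rw [h3, t.col_nb]

theorem exists_aut {F : Subgroup (Equiv.Perm Ω)} {g : Equiv.Perm V} (hg : g ∈ Grp t.sys F) :
    ∃ h : t.graph ≃g t.graph, autHom t.graph h = g := by
  have key : ∀ g ∈ Grp t.sys F, ∀ x y, t.graph.Adj x y → t.graph.Adj (g x) (g y) := by
    intro g hg x y h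
    obtain ⟨p, -, hp⟩ := hg x
    have h1 := hp (t.col s(x, y))
    have h2 : t.sys.κ (t.col s(x, y)) x = y := (t.eq_nb h).symm
    rw [h2] at h1
    rw [h1]
    exact t.adj_nb _ _
  refine ⟨⟨g, @fun x y => ⟨fun h => ?_, key g hg x y⟩⟩, rfl⟩
  have h1 := key g⁻¹ ((Grp t.sys F).inv_mem hg) _ _ h
  simpa using h1

/-- the Burger-Mozes group as a group of permutations -/
theorem nonempty_iso_Grp (F : Subgroup (Equiv.Perm Ω)) :
    Nonempty (U t F ≃ₜ* Grp t.sys F) := by
  have hinj : Function.Injective (autHom t.graph) := by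
    intro g h hgh
    exact RelIso.toEquiv_injective hgh
  let f : U t F →* Grp t.sys F :=
    { toFun := fun g => ⟨autHom t.graph g.1, (mem_U_iff t).1 g.2⟩
      map_one' := rfl
      map_mul' := fun _ _ => rfl }
  have hf : Function.Bijective f := by
    constructor
    · intro g h hgh
      exact Subtype.ext (hinj (congrArg Subtype.val hgh))
    · rintro ⟨g, hg⟩
      obtain ⟨h, rfl⟩ := exists_aut t hg
      exact ⟨⟨h, (mem_U_iff t).2 hg⟩, rfl⟩
  have hfi : IsInducing f := by
    have h1 : IsInducing (Subtype.val ∘ f : U t F → Equiv.Perm V) :=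
      (isInducing_autHom t.graph).comp IsInducing.subtypeVal
    exact IsInducing.of_comp (by
      rw [continuous_induced_rng]
      exact h1.continuous) continuous_subtype_val h1
  let e : U t F ≃* Grp t.sys F := MulEquiv.ofBijective f hf
  let e' : U t F ≃ₜ Grp t.sys F := (Equiv.ofBijective f hf).toHomeomorphOfIsInducing hfi
  exact ⟨{ e with
    continuous_toFun := e'.continuous
    continuous_invFun := e'.symm.continuous }⟩

instance [Finite Ω] (F : Subgroup (Equiv.Perm Ω)) : LocallyCompactSpace (U t F) := by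
  obtain ⟨e⟩ := nonempty_iso_Grp t F
  have h := locallyCompact_Grp t.isTree_sys.trans F
  exact e.toHomeomorph.isClosedEmbedding.locallyCompactSpace

/-- the main isomorphism -/
theorem nonempty_iso_U {V W : Type u} {Ω : Type v} [Nonempty Ω] (t₁ : ColTree V (Option Ω))
    (t₂ : ColTree W (Ω × Bool)) (F : Subgroup (Equiv.Perm Ω)) :
    Nonempty (U t₁ (addPt F) ≃ₜ* U t₂ (wreath F)) := by
  obtain ⟨x⟩ := t₁.isTree.1.nonempty
  obtain ⟨y⟩ := t₂.isTree.1.nonempty
  obtain ⟨e, -, he⟩ := t₁.isTree_sys.exists_equiv t₂.isTree_sys.split x ((y, false) : W × Bool)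
  obtain ⟨e₁⟩ := nonempty_iso_Grp t₁ (addPt F)
  obtain ⟨e₂⟩ := nonempty_iso_of_equiv e he (addPt F)
  obtain ⟨e₃⟩ := nonempty_iso (A := t₂.sys) (F := F)
  obtain ⟨e₄⟩ := nonempty_iso_Grp t₂ (wreath F)
  exact ⟨((e₁.trans e₂).trans e₃).trans e₄.symm⟩

theorem not_discrete_U {V : Type u} {Ω : Type v} (t : ColTree V (Option Ω))
    {F : Subgroup (Equiv.Perm Ω)} (hF : F ≠ ⊥) : ¬ DiscreteTopology (U t (addPt F)) := by
  obtain ⟨x⟩ := t.isTree.1.nonempty
  obtain ⟨e⟩ := nonempty_iso_Grp t (addPt F)
  intro h
  apply not_discrete t.isTree_sys hF x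
  exact e.symm.toHomeomorph.isEmbedding.discreteTopology

end group

end Pool.Agent.W657.BM
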